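import Mathlib

set_option autoImplicit false

namespace H37.Eqn

open Matrix

/-- Two by two matrices. -/
abbrev M2 (B : Type*) := Matrix (Fin 2) (Fin 2) B

section ev
variable {G : Type*} [Group G]

/-- Evaluation of a word with coefficients in `G` at `x`. -/
def ev {A : Type*} [Group A] (ψ : G →* A) (x : A) : Monoid.Coprod G (FreeGroup Unit) →* A :=
  Monoid.Coprod.lift ψ (FreeGroup.lift fun _ => x)

theorem comp_ev {A A' : Type*} [Group A] [Group A'] (F : A →* A') (ψ : G →* A) (x : A) :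
    F.comp (ev ψ x) = ev (F.comp ψ) (F x) := by
  apply Monoid.Coprod.hom_ext
  · ext g; simp [ev]
  · ext; simp [ev]

theorem map_ev {A A' : Type*} [Group A] [Group A'] (F : A →* A') (ψ : G →* A) (x : A)
    (w : Monoid.Coprod G (FreeGroup Unit)) :
    F (ev ψ x w) = ev (F.comp ψ) (F x) w := by
  rw [← comp_ev]; rfl

/-- A subgroup containing the coefficients and `x` contains every value. -/
theorem ev_mem {A : Type*} [Group A] (S : Subgroup A) (ψ : G →* A) (x : A)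
    (hψ : ∀ g, ψ g ∈ S) (hx : x ∈ S) (w : Monoid.Coprod G (FreeGroup Unit)) : ev ψ x w ∈ S := by
  have h1 : (ev ψ x).range ≤ S := by
    unfold ev
    rw [Monoid.Coprod.range_lift]
    refine sup_le ?_ ?_
    · rintro _ ⟨g, rfl⟩; exact hψ g
    · rw [FreeGroup.range_lift_eq_closure, Subgroup.closure_le]
      rintro _ ⟨_, rfl⟩
      exact hx
  exact h1 ⟨w, rfl⟩

/-- Intertwining. -/
theorem intertwine {B : Type*} [CommRing B] (T : M2 B) (ψ₁ ψ₂ : G →* (M2 B)ˣ) (X₁ X₂ : (M2 B)ˣ)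
    (hψ : ∀ g, T * (ψ₁ g : M2 B) = (ψ₂ g : M2 B) * T) (hX : T * (X₁ : M2 B) = (X₂ : M2 B) * T)
    (w : Monoid.Coprod G (FreeGroup Unit)) :
    T * (ev ψ₁ X₁ w : M2 B) = (ev ψ₂ X₂ w : M2 B) * T := by
  let S : Subgroup ((M2 B)ˣ × (M2 B)ˣ) :=
    { carrier := {u | T * (u.1 : M2 B) = (u.2 : M2 B) * T}
      mul_mem' := by
        intro a b ha hb
        simp only [Set.mem_ofPred_eq, Prod.fst_mul, Prod.snd_mul, Units.val_mul] at *
        rw [← mul_assoc, ha, mul_assoc, hb, mul_assoc]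
      one_mem' := by simp
      inv_mem' := by
        intro a ha
        simp only [Set.mem_ofPred_eq, Prod.fst_inv, Prod.snd_inv] at *
        calc T * ((a.1⁻¹ : (M2 B)ˣ) : M2 B)
            = ((a.2⁻¹ : (M2 B)ˣ) : M2 B) * ((a.2 : M2 B) * T) * ((a.1⁻¹ : (M2 B)ˣ) : M2 B) := by
              rw [← mul_assoc, Units.inv_mul, one_mul]
          _ = ((a.2⁻¹ : (M2 B)ˣ) : M2 B) * T := by
              rw [← ha, mul_assoc, mul_assoc, Units.mul_inv, mul_one] }
  have h := ev_mem S (ψ₁.prod ψ₂) (X₁, X₂) (fun g => hψ g) hX w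
  have e1 : (ev (ψ₁.prod ψ₂) (X₁, X₂) w).1 = ev ψ₁ X₁ w := by
    have := map_ev (MonoidHom.fst (M2 B)ˣ (M2 B)ˣ) (ψ₁.prod ψ₂) (X₁, X₂) w
    simpa using this
  have e2 : (ev (ψ₁.prod ψ₂) (X₁, X₂) w).2 = ev ψ₂ X₂ w := by
    have := map_ev (MonoidHom.snd (M2 B)ˣ (M2 B)ˣ) (ψ₁.prod ψ₂) (X₁, X₂) w
    simpa using this
  have h' : T * ((ev (ψ₁.prod ψ₂) (X₁, X₂) w).1 : M2 B) =
    ((ev (ψ₁.prod ψ₂) (X₁, X₂) w).2 : M2 B) * T := h
  rwa [e1, e2] at h'

/-- The exponent sum of the unknown. -/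
def expo : Monoid.Coprod G (FreeGroup Unit) →* Multiplicative ℤ :=
  Monoid.Coprod.lift (1 : G →* Multiplicative ℤ)
    (FreeGroup.lift (fun _ => Multiplicative.ofAdd (1 : ℤ)))

theorem ev_comm {A : Type*} [CommGroup A] (l : G →* A) (a : A)
    (w : Monoid.Coprod G (FreeGroup Unit)) :
    ev l a w = ev l 1 w * a ^ (Multiplicative.toAdd (expo w)) := by
  have h : ev l a = ev l 1 * ((zpowersHom A a).comp (expo (G := G))) := by
    apply Monoid.Coprod.hom_ext
    · ext g; simp [ev, expo]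
    · ext; simp [ev, expo]
  rw [h]; simp

end ev

section mats
variable {B : Type*} [CommRing B]

/-- The matrix with entries `p q r s` and determinant one. -/
def mkSL (p q r s : B) (h : p * s - q * r = 1) : (M2 B)ˣ :=
  ⟨!![p, q; r, s], !![s, -q; -r, p], by
    ext i j; fin_cases i <;> fin_cases j <;> simp [Matrix.mul_apply, Fin.sum_univ_two] <;>
      first | linear_combination h | ring, by
    ext i j; fin_cases i <;> fin_cases j <;> simp [Matrix.mul_apply, Fin.sum_univ_two] <;>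
      first | linear_combination h | ring⟩

@[simp] theorem mkSL_val (p q r s : B) (h : p * s - q * r = 1) :
    (mkSL p q r s h : M2 B) = !![p, q; r, s] := rfl

/-- `diag(u, 1)`. -/
def dg : Bˣ →* (M2 B)ˣ where
  toFun u := ⟨!![(u : B), 0; 0, 1], !![((u⁻¹ : Bˣ) : B), 0; 0, 1], by
    ext i j; fin_cases i <;> fin_cases j <;> simp [Matrix.mul_apply, Fin.sum_univ_two], by
    ext i j; fin_cases i <;> fin_cases j <;> simp [Matrix.mul_apply, Fin.sum_univ_two]⟩
  map_one' := by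
    ext i j; fin_cases i <;> fin_cases j <;> simp
  map_mul' u v := by
    ext i j; fin_cases i <;> fin_cases j <;> simp [Matrix.mul_apply, Fin.sum_univ_two]

@[simp] theorem dg_val (u : Bˣ) : ((dg u : (M2 B)ˣ) : M2 B) = !![(u : B), 0; 0, 1] := rfl

/-- The map of unit groups of matrix rings induced by a ring homomorphism. -/
def mapU {B' : Type*} [CommRing B'] (f : B →+* B') : (M2 B)ˣ →* (M2 B')ˣ :=
  Units.map (f.mapMatrix : M2 B →+* M2 B').toMonoidHom

@[simp] theorem mapU_val {B' : Type*} [CommRing B'] (f : B →+* B') (A : (M2 B)ˣ) (i j : Fin 2) :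
    (mapU f A : M2 B') i j = f ((A : M2 B) i j) := rfl

theorem mapU_mkSL {B' : Type*} [CommRing B'] (f : B →+* B') (p q r s : B)
    (h : p * s - q * r = 1) (h' : f p * f s - f q * f r = 1) :
    mapU f (mkSL p q r s h) = mkSL (f p) (f q) (f r) (f s) h' := by
  ext i j; fin_cases i <;> fin_cases j <;> simp

theorem mapU_dg {B' : Type*} [CommRing B'] (f : B →+* B') (u : Bˣ) :
    mapU f (dg u) = dg (Units.map f.toMonoidHom u) := by
  ext i j; fin_cases i <;> fin_cases j <;> simp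

/-- `diag(u, v)`. -/
def dg2 : Bˣ × Bˣ →* (M2 B)ˣ where
  toFun u := ⟨!![(u.1 : B), 0; 0, (u.2 : B)], !![((u.1⁻¹ : Bˣ) : B), 0; 0, ((u.2⁻¹ : Bˣ) : B)], by
    ext i j; fin_cases i <;> fin_cases j <;> simp [Matrix.mul_apply, Fin.sum_univ_two], by
    ext i j; fin_cases i <;> fin_cases j <;> simp [Matrix.mul_apply, Fin.sum_univ_two]⟩
  map_one' := by
    ext i j; fin_cases i <;> fin_cases j <;> simp
  map_mul' u v := by
    ext i j; fin_cases i <;> fin_cases j <;> simp [Matrix.mul_apply, Fin.sum_univ_two]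

@[simp] theorem dg2_val (u : Bˣ × Bˣ) :
    ((dg2 u : (M2 B)ˣ) : M2 B) = !![(u.1 : B), 0; 0, (u.2 : B)] := rfl

theorem diag_ev {G : Type*} [Group G] (l : G →* Bˣ) (z : Bˣ)
    (h : (z : B) * ((z⁻¹ : Bˣ) : B) - 0 * 0 = 1) (w : Monoid.Coprod G (FreeGroup Unit)) :
    (ev (dg.comp l) (mkSL (z : B) 0 0 ((z⁻¹ : Bˣ) : B) h) w : M2 B) 0 0 = (ev l z w : B) := by
  have h1 := map_ev (dg2 (B := B)) (l.prod 1) (z, z⁻¹) w
  have h2 : (dg2 (B := B)).comp (l.prod 1) = dg.comp l := by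
    ext g i j; fin_cases i <;> fin_cases j <;> simp
  have h3 : dg2 (z, z⁻¹) = mkSL (z : B) 0 0 ((z⁻¹ : Bˣ) : B) h := by
    ext i j; fin_cases i <;> fin_cases j <;> simp
  rw [h2, h3] at h1
  rw [← h1]
  have h5 := map_ev (MonoidHom.fst Bˣ Bˣ) (l.prod 1) (z, z⁻¹) w
  simp only [MonoidHom.coe_fst, MonoidHom.fst_comp_prod] at h5
  simp [h5]

end mats

end H37.Eqn
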