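import Mathlib

set_option autoImplicit false

namespace H37.Eqn

section
variable {D : Type*} [CommGroup D]

/-- The ring homomorphism attached to a character. -/
noncomputable def chi (f : D →* Circle) : MonoidAlgebra ℤ D →+* ℂ :=
  (MonoidAlgebra.lift ℤ ℂ D (Circle.coeHom.comp f)).toRingHom

theorem chi_apply (f : D →* Circle) (a : MonoidAlgebra ℤ D) :
    chi f a = ∑ d ∈ a.coeff.support, (a.coeff d : ℂ) * (f d : ℂ) := by
  unfold chi
  change (MonoidAlgebra.lift ℤ ℂ D (Circle.coeHom.comp f)) a = _
  rw [MonoidAlgebra.lift_apply, Finsupp.sum]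
  refine Finset.sum_congr rfl fun d _ => ?_
  rw [zsmul_eq_mul]
  rfl

theorem chi_single (f : D →* Circle) (d : D) :
    chi f (MonoidAlgebra.single d 1) = (f d : ℂ) := by
  unfold chi
  change (MonoidAlgebra.lift ℤ ℂ D (Circle.coeHom.comp f)) (MonoidAlgebra.single d 1) = _
  rw [MonoidAlgebra.lift_single, one_smul]
  rfl

/-- rational circle to real circle -/
noncomputable def qCircle : AddCircle (1 : ℚ) →+ AddCircle (1 : ℝ) :=
  QuotientAddGroup.map (AddSubgroup.zmultiples (1 : ℚ)) (AddSubgroup.zmultiples (1 : ℝ))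
    (Rat.castHom ℝ).toAddMonoidHom (by
      rw [AddSubgroup.zmultiples_le]
      rw [AddSubgroup.mem_comap]
      simp)

theorem qCircle_inj (x : AddCircle (1 : ℚ)) (hx : qCircle x = 0) : x = 0 := by
  induction x using QuotientAddGroup.induction_on with
  | H z =>
    have h1 : ((z : ℝ) : AddCircle (1 : ℝ)) = 0 := hx
    rw [AddCircle.coe_eq_zero_iff] at h1 ⊢
    obtain ⟨n, hn⟩ := h1
    refine ⟨n, ?_⟩
    have : ((n • (1 : ℚ) : ℚ) : ℝ) = (z : ℝ) := by
      rw [← hn]; simp
    exact_mod_cast this

theorem exists_char (d : D) (hd : d ≠ 1) : ∃ f : D →* Circle, f d ≠ 1 := by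
  have h0 : (Additive.ofMul d) ≠ 0 := by
    intro h; exact hd h
  obtain ⟨c, hc⟩ := CharacterModule.exists_character_apply_ne_zero_of_ne_zero h0
  let f : D →* Circle :=
    { toFun := fun x => AddCircle.toCircle (qCircle (c (Additive.ofMul x)))
      map_one' := by simp
      map_mul' := by
        intro x y
        rw [ofMul_mul, map_add, map_add, AddCircle.toCircle_add] }
  refine ⟨f, ?_⟩
  intro h
  apply hc
  apply qCircle_inj
  have h2 : AddCircle.toCircle (qCircle (c (Additive.ofMul d))) =
      AddCircle.toCircle (0 : AddCircle (1 : ℝ)) := by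
    rw [AddCircle.toCircle_zero]; exact h
  exact AddCircle.injective_toCircle one_ne_zero h2

/-- An element of the group ring killed by all characters is zero. -/
theorem eq_zero_of_chi (a : MonoidAlgebra ℤ D) (h : ∀ f : D →* Circle, chi f a = 0) : a = 0 := by
  let E : D → ((D →* Circle) →* ℂ) := fun d =>
    { toFun := fun f => (f d : ℂ)
      map_one' := by simp
      map_mul' := by intro f g; simp }
  have hE : Function.Injective E := by
    intro d d' hdd
    by_contra hne
    have : d * d'⁻¹ ≠ 1 := fun h => hne (mul_inv_eq_one.1 h)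
    obtain ⟨f, hf⟩ := exists_char _ this
    apply hf
    have h1 : (f d : ℂ) = (f d' : ℂ) := congrArg (fun k : (D →* Circle) →* ℂ => k f) hdd
    have h2 : f d = f d' := Circle.coe_injective h1
    rw [map_mul, map_inv, h2, mul_inv_cancel]
  have hli : LinearIndependent ℂ (fun d : D => (E d : (D →* Circle) → ℂ)) :=
    (linearIndependent_monoidHom (D →* Circle) ℂ).comp E hE
  rw [linearIndependent_iff'] at hli
  have h1 := hli a.coeff.support (fun d => (a.coeff d : ℂ)) (by
    funext f
    rw [Finset.sum_apply]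
    have := h f
    rw [chi_apply] at this
    exact this)
  have h2 : a.coeff = 0 := by
    ext d
    by_cases hd : d ∈ a.coeff.support
    · have := h1 d hd
      simpa using this
    · simpa using hd
  exact MonoidAlgebra.ext (by rw [h2]; rfl)

/-- Compactness of the space of characters. -/
theorem uniform_bound (b : ℕ → MonoidAlgebra ℤ D)
    (h : ∀ f : D →* Circle, ∃ i, chi f (b i) ≠ 0) :
    ∃ N, ∀ f : D →* Circle, ∃ i ≤ N, chi f (b i) ≠ 0 := by
  let K : Set (D → Circle) := {f | ∀ x y, f (x * y) = f x * f y}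
  have hK : IsCompact K := (isClosed_setOfPred_map_mul D Circle).isCompact
  let ev : ℕ → (D → Circle) → ℂ := fun i f =>
    ∑ d ∈ (b i).coeff.support, ((b i).coeff d : ℂ) * (f d : ℂ)
  have hev : ∀ i, Continuous (ev i) := by
    intro i
    refine continuous_finsetSum _ fun d _ => ?_
    exact continuous_const.mul (continuous_subtype_val.comp (continuous_apply d))
  let U : ℕ → Set (D → Circle) := fun i => {f | ev i f ≠ 0}
  have hU : ∀ i, IsOpen (U i) := fun i => isOpen_ne.preimage (hev i)
  have hcov : K ⊆ ⋃ i, U i := by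
    intro f hf
    let f' : D →* Circle := MonoidHom.mk' f hf
    obtain ⟨i, hi⟩ := h f'
    rw [chi_apply] at hi
    exact Set.mem_iUnion.2 ⟨i, hi⟩
  obtain ⟨t, ht⟩ := hK.elim_finite_subcover U hU hcov
  refine ⟨t.sup id, ?_⟩
  intro f
  have hf : (f : D → Circle) ∈ K := fun x y => map_mul f x y
  obtain ⟨i, hi, hfi⟩ := Set.mem_iUnion₂.1 (ht hf)
  refine ⟨i, Finset.le_sup (f := id) hi, ?_⟩
  rw [chi_apply]
  exact hfi

end

end H37.Eqn
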