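import Mathlib
import Pool.Agent.H37.Eqn.Basic

set_option autoImplicit false

namespace H37.Eqn

open Matrix Polynomial

section defs
variable {R : Type*} [CommRing R]

/-- First variable. -/
noncomputable def pv : R[X][X] := C X
/-- Second variable. -/
noncomputable def sv : R[X][X] := X

/-- Evaluation of a polynomial in two variables. -/
noncomputable def ev2 {B : Type*} [CommRing B] (f : R →+* B) (p s : B) : R[X][X] →+* B :=
  eval₂RingHom (eval₂RingHom f p) s

section
variable {B : Type*} [CommRing B] (f : R →+* B) (p s : B)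
@[simp] theorem ev2_pv : ev2 f p s pv = p := by simp [ev2, pv]
@[simp] theorem ev2_sv : ev2 f p s sv = s := by simp [ev2, sv]
@[simp] theorem ev2_CC (a : R) : ev2 f p s (C (C a)) = f a := by simp [ev2]

theorem ev2_hom_ext {g g' : R[X][X] →+* B} (h1 : ∀ a, g (C (C a)) = g' (C (C a)))
    (h2 : g pv = g' pv) (h3 : g sv = g' sv) : g = g' := by
  apply Polynomial.ringHom_ext
  · intro a
    have : g.comp C = g'.comp C := by
      apply Polynomial.ringHom_ext
      · exact h1
      · exact h2
    exact congrArg (fun k : R[X] →+* B => k a) this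
  · exact h3

theorem ev2_comp {B' : Type*} [CommRing B'] (g : B →+* B') :
    g.comp (ev2 f p s) = ev2 (g.comp f) (g p) (g s) := by
  apply ev2_hom_ext <;> simp

theorem map_ev2 {B' : Type*} [CommRing B'] (g : B →+* B') (F : R[X][X]) :
    g (ev2 f p s F) = ev2 (g.comp f) (g p) (g s) F := by
  rw [← ev2_comp]; rfl
end

variable {G : Type*} [Group G] (l : G →* Rˣ) (w : Monoid.Coprod G (FreeGroup Unit))

/-- The coefficients pushed to another ring. -/
def push {B : Type*} [CommRing B] (f : R →+* B) : G →* Bˣ := (Units.map f.toMonoidHom).comp l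

@[simp] theorem push_val {B : Type*} [CommRing B] (f : R →+* B) (g : G) :
    ((push l f g : Bˣ) : B) = f (l g) := rfl

theorem push_push {B B' : Type*} [CommRing B] [CommRing B'] (f : R →+* B) (g : B →+* B') :
    push (push l f) g = push l (g.comp f) := by
  ext x; simp

theorem mapU_comp_dg {B B' : Type*} [CommRing B] [CommRing B'] (f : R →+* B) (g : B →+* B') :
    (mapU g).comp (dg.comp (push l f)) = dg.comp (push l (g.comp f)) := by
  apply MonoidHom.ext
  intro x
  simp only [MonoidHom.comp_apply]
  rw [mapU_dg]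
  congr 1

/-- The coefficients in the polynomial ring. -/
noncomputable def lB : G →* (R[X][X])ˣ := push l (C.comp C)

/-- The value at the first universal matrix. -/
noncomputable def U1 : (M2 R[X][X])ˣ :=
  ev (dg.comp (lB l)) (mkSL pv (pv * sv - 1) 1 sv (by ring)) w

/-- The value at the second universal matrix. -/
noncomputable def U2 : (M2 R[X][X])ˣ :=
  ev (dg.comp (lB l)) (mkSL pv 1 (pv * sv - 1) sv (by ring)) w

/-- The four polynomials. -/
noncomputable def PP : R[X][X] := (U1 l w : M2 R[X][X]) 0 0
noncomputable def RR : R[X][X] := (U1 l w : M2 R[X][X]) 1 0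
noncomputable def QQ : R[X][X] := (U2 l w : M2 R[X][X]) 0 1
noncomputable def SS : R[X][X] := (U2 l w : M2 R[X][X]) 1 1

theorem main_formula {B : Type*} [CommRing B] (f : R →+* B) (p q r s : B)
    (h : p * s - q * r = 1) :
    (ev (dg.comp (push l f)) (mkSL p q r s h) w : M2 B) =
      !![ev2 f p s (PP l w), q * ev2 f p s (QQ l w);
         r * ev2 f p s (RR l w), ev2 f p s (SS l w)] := by
  have hps : p * s - 1 = q * r := by linear_combination h
  -- first universal matrix
  have h1 : mapU (ev2 f p s) (U1 l w) =
      ev (dg.comp (push l f)) (mkSL p (q * r) 1 s (by linear_combination h)) w := by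
    unfold U1
    rw [map_ev]
    congr 1
    · congr 1
      · unfold lB
        rw [mapU_comp_dg]
        congr 2
        ext a; simp
      · ext i j; fin_cases i <;> fin_cases j <;> simp [hps]
  have h2 : mapU (ev2 f p s) (U2 l w) =
      ev (dg.comp (push l f)) (mkSL p 1 (q * r) s (by linear_combination h)) w := by
    unfold U2
    rw [map_ev]
    congr 1
    · congr 1
      · unfold lB
        rw [mapU_comp_dg]
        congr 2
        ext a; simp
      · ext i j; fin_cases i <;> fin_cases j <;> simp [hps]
  have i1 := intertwine (!![1, 0; 0, r] : M2 B) (dg.comp (push l f)) (dg.comp (push l f))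
    (mkSL p (q * r) 1 s (by linear_combination h)) (mkSL p q r s h)
    (by intro g; ext i j; fin_cases i <;> fin_cases j <;>
          simp [Matrix.mul_apply, Fin.sum_univ_two])
    (by ext i j; fin_cases i <;> fin_cases j <;>
          simp [Matrix.mul_apply, Fin.sum_univ_two, mul_comm]) w
  have i2 := intertwine (!![q, 0; 0, 1] : M2 B) (dg.comp (push l f)) (dg.comp (push l f))
    (mkSL p 1 (q * r) s (by linear_combination h)) (mkSL p q r s h)
    (by intro g; ext i j; fin_cases i <;> fin_cases j <;>
          simp [Matrix.mul_apply, Fin.sum_univ_two, mul_comm])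
    (by ext i j; fin_cases i <;> fin_cases j <;>
          simp [Matrix.mul_apply, Fin.sum_univ_two, mul_comm]) w
  rw [← h1] at i1
  rw [← h2] at i2
  ext i j
  fin_cases i <;> fin_cases j
  · have := congrFun (congrFun i1 0) 0
    simpa [Matrix.mul_apply, Fin.sum_univ_two, PP] using this.symm
  · have := congrFun (congrFun i2 0) 1
    simpa [Matrix.mul_apply, Fin.sum_univ_two, QQ] using this.symm
  · have := congrFun (congrFun i1 1) 0
    simpa [Matrix.mul_apply, Fin.sum_univ_two, RR] using this.symm
  · have := congrFun (congrFun i2 1) 1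
    simpa [Matrix.mul_apply, Fin.sum_univ_two, SS] using this.symm

/-- naturality of the four polynomials -/
theorem PP_map {B : Type*} [CommRing B] (f : R →+* B) :
    PP (push l f) w = ev2 ((C.comp C : B →+* B[X][X]).comp f) pv sv (PP l w) := by
  have h := main_formula l w ((C.comp C : B →+* B[X][X]).comp f) pv (pv * sv - 1) 1 sv (by ring)
  have h0 := congrFun (congrFun h 0) 0
  simp only [Matrix.of_apply, Matrix.cons_val', Matrix.cons_val_zero] at h0
  rw [← h0]
  unfold PP U1 lB
  rw [push_push]

theorem RR_map {B : Type*} [CommRing B] (f : R →+* B) :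
    RR (push l f) w = ev2 ((C.comp C : B →+* B[X][X]).comp f) pv sv (RR l w) := by
  have h := main_formula l w ((C.comp C : B →+* B[X][X]).comp f) pv (pv * sv - 1) 1 sv (by ring)
  have h0 := congrFun (congrFun h 1) 0
  simp at h0
  rw [← h0]
  unfold RR U1 lB
  rw [push_push]

theorem QQ_map {B : Type*} [CommRing B] (f : R →+* B) :
    QQ (push l f) w = ev2 ((C.comp C : B →+* B[X][X]).comp f) pv sv (QQ l w) := by
  have h := main_formula l w ((C.comp C : B →+* B[X][X]).comp f) pv 1 (pv * sv - 1) sv (by ring)
  have h0 := congrFun (congrFun h 0) 1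
  simp at h0
  rw [← h0]
  unfold QQ U2 lB
  rw [push_push]

theorem SS_map {B : Type*} [CommRing B] (f : R →+* B) :
    SS (push l f) w = ev2 ((C.comp C : B →+* B[X][X]).comp f) pv sv (SS l w) := by
  have h := main_formula l w ((C.comp C : B →+* B[X][X]).comp f) pv 1 (pv * sv - 1) sv (by ring)
  have h0 := congrFun (congrFun h 1) 1
  simp at h0
  rw [← h0]
  unfold SS U2 lB
  rw [push_push]

/-- evaluation after pushing -/
theorem ev2_push {B B' : Type*} [CommRing B] [CommRing B'] (f : R →+* B) (g : B →+* B')
    (p s : B') (F : R[X][X]) :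
    ev2 g p s (ev2 ((C.comp C : B →+* B[X][X]).comp f) pv sv F) = ev2 (g.comp f) p s F := by
  rw [map_ev2]
  congr 2
  · ext a; simp
  · simp
  · simp

/-- determinant relation -/
theorem det_rel (hl : ev l 1 w = 1) :
    PP l w * SS l w - (pv * sv - 1) * (QQ l w * RR l w) = 1 := by
  have h := main_formula l w (C.comp C) pv (pv * sv - 1) 1 sv (by ring)
  have hid : ∀ F : R[X][X], ev2 (C.comp C) pv sv F = F := by
    intro F
    have : ev2 (C.comp C : R →+* R[X][X]) pv sv = RingHom.id _ := by
      apply ev2_hom_ext <;> simp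
    rw [this]; rfl
  simp only [hid] at h
  have hdet := congrArg Matrix.det h
  have hd2 : Matrix.det (ev (dg.comp (push l (C.comp C)))
      (mkSL pv (pv * sv - 1) 1 sv (by ring)) w : M2 R[X][X]) = 1 := by
    let dt : (M2 R[X][X])ˣ →* (R[X][X])ˣ := Units.map (Matrix.detMonoidHom)
    have h3 := map_ev dt (dg.comp (push l (C.comp C)))
      (mkSL pv (pv * sv - 1) 1 sv (by ring)) w
    have h4 : dt.comp (dg.comp (push l (C.comp C))) = push l (C.comp C : R →+* R[X][X]) := by
      ext g; simp [dt]
    have h5 : dt (mkSL pv (pv * sv - 1) 1 sv (by ring)) = (1 : (R[X][X])ˣ) := by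
      ext; simp [dt]
    rw [h4, h5] at h3
    have h6 : ev (push l (C.comp C : R →+* R[X][X])) 1 w = 1 := by
      have h7 := map_ev (Units.map (C.comp C : R →+* R[X][X]).toMonoidHom) l 1 w
      rw [hl] at h7
      simpa [push] using h7.symm
    rw [h6] at h3
    have := congrArg Units.val h3
    simpa [dt] using this
  rw [hd2, Matrix.det_fin_two] at hdet
  simp at hdet
  linear_combination -hdet

theorem PP_diag {B : Type*} [CommRing B] (hl : ev l 1 w = 1)
    (he : expo w = Multiplicative.ofAdd 1) (f : R →+* B) (p s : B) (hps : p * s = 1) :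
    ev2 f p s (PP l w) = p := by
  have h := main_formula l w f p 0 0 s (by rw [hps]; ring)
  have h00 := congrFun (congrFun h 0) 0
  simp at h00
  let z : Bˣ := ⟨p, s, hps, (mul_comm _ _).trans hps⟩
  have h1 := diag_ev (push l f) z (by rw [Units.mul_inv]; ring) w
  have h4 : ev (push l f) z w = z := by
    rw [ev_comm, he]
    have h6 : ev (push l f) 1 w = 1 := by
      have h7 := map_ev (Units.map f.toMonoidHom) l 1 w
      rw [hl] at h7
      simpa [push] using h7.symm
    rw [h6]; simp
  rw [h4] at h1
  exact h00.symm.trans h1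

/-- P is p modulo ps-1 -/
theorem PP_mod (hl : ev l 1 w = 1) (he : expo w = Multiplicative.ofAdd 1) :
    ∃ P1 : R[X][X], PP l w = pv + (pv * sv - 1) * P1 := by
  let I : Ideal R[X][X] := Ideal.span {pv * sv - 1}
  let θ : R[X][X] →+* (R[X][X] ⧸ I) := Ideal.Quotient.mk I
  have hps : θ pv * θ sv = 1 := by
    have : θ (pv * sv - 1) = 0 := Ideal.Quotient.eq_zero_iff_mem.2 (Ideal.subset_span rfl)
    rw [map_sub, map_mul, map_one, sub_eq_zero] at this
    exact this
  have h := PP_diag l w hl he (θ.comp (C.comp C)) (θ pv) (θ sv) hps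
  have hid : ∀ F : R[X][X], ev2 (θ.comp (C.comp C)) (θ pv) (θ sv) F = θ F := by
    intro F
    have : ev2 (θ.comp (C.comp C)) (θ pv) (θ sv) = θ := by
      apply ev2_hom_ext <;> simp
    rw [this]
  rw [hid] at h
  have h8 : PP l w - pv ∈ I := by
    rw [← Ideal.Quotient.eq_zero_iff_mem]
    change θ (PP l w - pv) = 0
    rw [map_sub, h, sub_self]
  obtain ⟨P1, hP1⟩ := Ideal.mem_span_singleton'.1 h8
  exact ⟨P1, by linear_combination -hP1⟩

end defs

end H37.Eqn
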