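import Mathlib
import Pool.Agent.H37.Eqn.Poly

set_option autoImplicit false

namespace H37.Eqn

open Polynomial

section
variable {R : Type*} [CommRing R]

/-- Congruent arguments give congruent values. -/
theorem ev2_congr {B : Type*} [CommRing B] (f : R →+* B) (I : Ideal B) (p s p' s' : B)
    (hp : p - p' ∈ I) (hs : s - s' ∈ I) (F : R[X][X]) :
    ev2 f p s F - ev2 f p' s' F ∈ I := by
  rw [← Ideal.Quotient.eq_zero_iff_mem, map_sub, map_ev2, map_ev2]
  have h1 : Ideal.Quotient.mk I p = Ideal.Quotient.mk I p' := Ideal.Quotient.eq.2 hp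
  have h2 : Ideal.Quotient.mk I s = Ideal.Quotient.mk I s' := Ideal.Quotient.eq.2 hs
  rw [h1, h2, sub_self]

theorem ev2_congr_dvd {B : Type*} [CommRing B] (f : R →+* B) (d : B) (p s p' s' : B)
    (hp : d ∣ p - p') (hs : d ∣ s - s') (F : R[X][X]) :
    d ∣ ev2 f p s F - ev2 f p' s' F := by
  rw [← Ideal.mem_span_singleton] at *
  exact ev2_congr f _ p s p' s' hp hs F

/-- A contraction of power series has a fixed point. -/
theorem exists_fixed (Φ : PowerSeries R × PowerSeries R → PowerSeries R × PowerSeries R)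
    (hΦ : ∀ n : ℕ, ∀ u v : PowerSeries R × PowerSeries R,
      PowerSeries.X ^ n ∣ u.1 - v.1 → PowerSeries.X ^ n ∣ u.2 - v.2 →
      PowerSeries.X ^ (n + 1) ∣ (Φ u).1 - (Φ v).1 ∧ PowerSeries.X ^ (n + 1) ∣ (Φ u).2 - (Φ v).2) :
    ∃ u, Φ u = u := by
  let a : ℕ → PowerSeries R × PowerSeries R := fun n => Φ^[n] (0, 0)
  have ha : ∀ n, a (n + 1) = Φ (a n) := fun n => Function.iterate_succ_apply' Φ n _
  have hstep : ∀ n, PowerSeries.X ^ n ∣ (a (n + 1)).1 - (a n).1 ∧
      PowerSeries.X ^ n ∣ (a (n + 1)).2 - (a n).2 := by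
    intro n
    induction n with
    | zero => simp
    | succ n ih =>
      rw [ha (n + 1), ha n]
      rw [ha n] at ih
      exact hΦ n _ _ ih.1 ih.2
  have hle : ∀ k n, PowerSeries.X ^ n ∣ (a (n + k)).1 - (a n).1 ∧
      PowerSeries.X ^ n ∣ (a (n + k)).2 - (a n).2 := by
    intro k n
    induction k with
    | zero => simp
    | succ k ih =>
      have h1 := hstep (n + k)
      have h2 : (PowerSeries.X : PowerSeries R) ^ n ∣ PowerSeries.X ^ (n + k) :=
        pow_dvd_pow _ (Nat.le_add_right n k)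
      constructor
      · have := dvd_add (h2.trans h1.1) ih.1
        rw [← add_assoc]
        convert this using 1
        ring
      · have := dvd_add (h2.trans h1.2) ih.2
        rw [← add_assoc]
        convert this using 1
        ring
  let u : PowerSeries R × PowerSeries R :=
    (PowerSeries.mk fun n => PowerSeries.coeff n (a (n + 1)).1,
     PowerSeries.mk fun n => PowerSeries.coeff n (a (n + 1)).2)
  have hu : ∀ n, PowerSeries.X ^ n ∣ u.1 - (a n).1 ∧ PowerSeries.X ^ n ∣ u.2 - (a n).2 := by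
    intro n
    constructor
    · rw [PowerSeries.X_pow_dvd_iff]
      intro m hm
      obtain ⟨k, rfl⟩ : ∃ k, n = (m + 1) + k := ⟨n - (m + 1), by omega⟩
      have h := (hle k (m + 1)).1
      rw [PowerSeries.X_pow_dvd_iff] at h
      have h' := h m (Nat.lt_succ_self m)
      rw [map_sub, sub_eq_zero] at h' ⊢
      rw [h']
      simp [u]
    · rw [PowerSeries.X_pow_dvd_iff]
      intro m hm
      obtain ⟨k, rfl⟩ : ∃ k, n = (m + 1) + k := ⟨n - (m + 1), by omega⟩
      have h := (hle k (m + 1)).2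
      rw [PowerSeries.X_pow_dvd_iff] at h
      have h' := h m (Nat.lt_succ_self m)
      rw [map_sub, sub_eq_zero] at h' ⊢
      rw [h']
      simp [u]
  refine ⟨u, ?_⟩
  have hfin : ∀ n, PowerSeries.X ^ (n + 1) ∣ (Φ u).1 - u.1 ∧
      PowerSeries.X ^ (n + 1) ∣ (Φ u).2 - u.2 := by
    intro n
    have h1 := hΦ n _ _ (hu n).1 (hu n).2
    rw [← ha n] at h1
    have h2 := hu (n + 1)
    constructor
    · have := dvd_sub h1.1 h2.1
      convert this using 1
      ring
    · have := dvd_sub h1.2 h2.2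
      convert this using 1
      ring
  apply Prod.ext
  · ext n
    have := (hfin n).1
    rw [PowerSeries.X_pow_dvd_iff] at this
    have := this n (Nat.lt_succ_self n)
    rwa [map_sub, sub_eq_zero] at this
  · ext n
    have := (hfin n).2
    rw [PowerSeries.X_pow_dvd_iff] at this
    have := this n (Nat.lt_succ_self n)
    rwa [map_sub, sub_eq_zero] at this

theorem exists_ps (P1 : R[X][X]) : ∃ p s : PowerSeries R,
    PowerSeries.constantCoeff p = 1 ∧ PowerSeries.constantCoeff s = 1 ∧
    p * s = 1 + PowerSeries.X ∧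
    p + PowerSeries.X * ev2 PowerSeries.C p s P1 = 1 := by
  let Φ : PowerSeries R × PowerSeries R → PowerSeries R × PowerSeries R := fun u =>
    (1 - PowerSeries.X * ev2 PowerSeries.C u.1 u.2 P1,
     1 + PowerSeries.X + PowerSeries.X * (ev2 PowerSeries.C u.1 u.2 P1 * u.2))
  obtain ⟨⟨p, s⟩, h⟩ := exists_fixed Φ (by
    intro n u v h1 h2
    have h3 := ev2_congr_dvd (R := R) PowerSeries.C _ _ _ _ _ h1 h2 P1
    constructor
    · have : (Φ u).1 - (Φ v).1 = PowerSeries.X * -(ev2 PowerSeries.C u.1 u.2 P1 -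
        ev2 PowerSeries.C v.1 v.2 P1) := by simp only [Φ]; ring
      rw [this, pow_succ']
      exact mul_dvd_mul_left _ (dvd_neg.2 h3)
    · have : (Φ u).2 - (Φ v).2 = PowerSeries.X * ((ev2 PowerSeries.C u.1 u.2 P1 -
        ev2 PowerSeries.C v.1 v.2 P1) * u.2 + ev2 PowerSeries.C v.1 v.2 P1 * (u.2 - v.2)) := by
        simp only [Φ]; ring
      rw [this, pow_succ']
      exact mul_dvd_mul_left _ (dvd_add (h3.mul_right _) (h2.mul_left _)))
  have e1 : 1 - PowerSeries.X * ev2 PowerSeries.C p s P1 = p := congrArg Prod.fst h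
  have e2 : 1 + PowerSeries.X + PowerSeries.X * (ev2 PowerSeries.C p s P1 * s) = s :=
    congrArg Prod.snd h
  refine ⟨p, s, ?_, ?_, ?_, ?_⟩
  · rw [← e1]; simp
  · rw [← e2]; simp
  · linear_combination s * (-e1) - e2
  · linear_combination -e1

end

end H37.Eqn
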