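import Mathlib
import Pool.Agent.H37.Eqn.Poly

set_option autoImplicit false

namespace H37.Eqn

open Matrix Polynomial

section
variable {R : Type*} [CommRing R]

/-- Inverse transpose. -/
def invT {B : Type*} [CommRing B] : (M2 B)ˣ →* (M2 B)ˣ where
  toFun u := ⟨((u⁻¹ : (M2 B)ˣ) : M2 B)ᵀ, (u : M2 B)ᵀ, by
    rw [← Matrix.transpose_mul, Units.mul_inv, Matrix.transpose_one], by
    rw [← Matrix.transpose_mul, Units.inv_mul, Matrix.transpose_one]⟩
  map_one' := by
    apply Units.ext
    simp
  map_mul' u v := by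
    apply Units.ext
    simp [Matrix.transpose_mul]

theorem invT_mkSL {B : Type*} [CommRing B] (p q r s : B) (h : p * s - q * r = 1) :
    ((invT (mkSL p q r s h) : (M2 B)ˣ) : M2 B) = !![s, -r; -q, p] := by
  ext i j; fin_cases i <;> fin_cases j <;> rfl

theorem invT_dg {B : Type*} [CommRing B] (u : Bˣ) : invT (dg u) = dg u⁻¹ := by
  ext i j; fin_cases i <;> fin_cases j <;> rfl

/-- The swap of the variables, twisted by an endomorphism of the coefficients. -/
noncomputable def tau (σ : R →+* R) : R[X][X] →+* R[X][X] := ev2 ((C.comp C).comp σ) sv pv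

@[simp] theorem tau_pv (σ : R →+* R) : tau σ pv = sv := by simp [tau]
@[simp] theorem tau_sv (σ : R →+* R) : tau σ sv = pv := by simp [tau]
@[simp] theorem tau_CC (σ : R →+* R) (a : R) : tau σ (C (C a)) = C (C (σ a)) := by
  simp [tau]

variable {G : Type*} [Group G] (l : G →* Rˣ) (w : Monoid.Coprod G (FreeGroup Unit))

theorem ev2_self (F : R[X][X]) : ev2 (C.comp C) pv sv F = F := by
  have : ev2 (C.comp C : R →+* R[X][X]) pv sv = RingHom.id _ := by
    apply ev2_hom_ext <;> simp
  rw [this]; rfl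

theorem U1_val : (U1 l w : M2 R[X][X]) = !![PP l w, (pv * sv - 1) * QQ l w; RR l w, SS l w] := by
  have h := main_formula l w (C.comp C) pv (pv * sv - 1) 1 sv (by ring)
  simp only [ev2_self, one_mul] at h
  exact h

theorem sym_rel (hl : ev l 1 w = 1) (σ : R →+* R) (hσ : ∀ g, σ (l g) * l g = 1) :
    PP l w = tau σ (SS l w) ∧ QQ l w = tau σ (RR l w) := by
  let J : (M2 R[X][X])ˣ →* (M2 R[X][X])ˣ := invT.comp (mapU (tau σ))
  have hJl : J.comp (dg.comp (lB l)) = dg.comp (lB l) := by
    apply MonoidHom.ext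
    intro g
    simp only [J, MonoidHom.comp_apply]
    rw [mapU_dg, invT_dg]
    congr 1
    rw [inv_eq_iff_mul_eq_one]
    ext1
    have : tau σ (C (C (l g : R))) * C (C (l g : R)) = 1 := by
      rw [tau_CC, ← C_mul, ← C_mul, hσ, C_1, C_1]
    simpa [lB] using this
  have hJX : J (mkSL pv (pv * sv - 1) 1 sv (by ring)) =
      mkSL pv (-1 : R[X][X]) (1 - pv * sv) sv (by ring) := by
    simp only [J, MonoidHom.comp_apply]
    rw [mapU_mkSL (tau σ) _ _ _ _ _ (by simp)]
    apply Units.ext
    rw [invT_mkSL]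
    ext i j; fin_cases i <;> fin_cases j <;> simp [mul_comm]
  have h1 : J (U1 l w) = ev (dg.comp (lB l)) (mkSL pv (-1) (1 - pv * sv) sv (by ring)) w := by
    unfold U1
    rw [map_ev, hJl, hJX]
  have h2 := main_formula l w (C.comp C) pv (-1) (1 - pv * sv) sv (by ring)
  simp only [ev2_self] at h2
  have hdet := det_rel l w hl
  have h3 : U1 l w = mkSL (PP l w) ((pv * sv - 1) * QQ l w) (RR l w) (SS l w)
      (by linear_combination hdet) := by
    apply Units.ext
    rw [U1_val]; rfl
  have hdet' : tau σ (PP l w) * tau σ (SS l w) -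
      tau σ ((pv * sv - 1) * QQ l w) * tau σ (RR l w) = 1 := by
    rw [← map_mul, ← map_mul, ← map_sub]
    have : PP l w * SS l w - (pv * sv - 1) * QQ l w * RR l w = 1 := by
      linear_combination hdet
    rw [this, map_one]
  have h4 : (J (U1 l w) : M2 R[X][X]) =
      !![tau σ (SS l w), -tau σ (RR l w); -tau σ ((pv * sv - 1) * QQ l w), tau σ (PP l w)] := by
    rw [h3]
    simp only [J, MonoidHom.comp_apply]
    rw [mapU_mkSL (tau σ) _ _ _ _ _ hdet', invT_mkSL]
  rw [h1] at h4
  have h5 := h2.symm.trans h4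
  have h00 := congrFun (congrFun h5 0) 0
  have h01 := congrFun (congrFun h5 0) 1
  simp at h00 h01
  exact ⟨h00, by linear_combination -h01⟩

end

end H37.Eqn
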