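import Mathlib
import Pool.Agent.H37.Eqn.Sym
import Pool.Agent.H37.Eqn.Fix

set_option autoImplicit false

namespace H37.Eqn

open Polynomial

section
variable {R : Type*} [CommRing R]

/-- Uniqueness of the solution modulo a power of the variable. -/
theorem uniq_mod (P1 : R[X][X]) (p s p' s' : PowerSeries R)
    (hp : PowerSeries.constantCoeff p' = 1)
    (hps : p * s = 1 + PowerSeries.X) (hps' : p' * s' = 1 + PowerSeries.X)
    (m : ℕ)
    (hP : p + PowerSeries.X * ev2 PowerSeries.C p s P1 = 1)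
    (hP' : PowerSeries.X ^ m ∣ p' + PowerSeries.X * ev2 PowerSeries.C p' s' P1 - 1) :
    PowerSeries.X ^ m ∣ p' - p ∧ PowerSeries.X ^ m ∣ s' - s := by
  have hu : IsUnit p' := by
    rw [PowerSeries.isUnit_iff_constantCoeff, hp]; exact isUnit_one
  have key : ∀ n, n ≤ m → PowerSeries.X ^ n ∣ p' - p ∧ PowerSeries.X ^ n ∣ s' - s := by
    intro n
    induction n with
    | zero => intro _; simp
    | succ n ih =>
      intro hn
      obtain ⟨h1, h2⟩ := ih (by omega)
      have h3 := ev2_congr_dvd (R := R) PowerSeries.C _ _ _ _ _ h1 h2 P1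
      have h4 : (PowerSeries.X : PowerSeries R) ^ (n + 1) ∣ p' - p := by
        have e : p' - p = (p' + PowerSeries.X * ev2 PowerSeries.C p' s' P1 - 1) -
          PowerSeries.X * (ev2 PowerSeries.C p' s' P1 - ev2 PowerSeries.C p s P1) := by
          linear_combination -hP
        rw [e]
        apply dvd_sub
        · exact (pow_dvd_pow _ hn).trans hP'
        · rw [pow_succ']
          exact mul_dvd_mul_left _ h3
      refine ⟨h4, ?_⟩
      have e : p' * (s' - s) = -((p' - p) * s) := by
        linear_combination hps' - hps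
      have h5 : (PowerSeries.X : PowerSeries R) ^ (n + 1) ∣ p' * (s' - s) := by
        rw [e]; exact dvd_neg.2 (h4.mul_right _)
      exact (hu.dvd_mul_left).1 h5
  exact key m le_rfl

theorem tau_swap (σ : R →+* R) (hσ : ∀ a, σ (σ a) = a) (p s : PowerSeries R) (F : R[X][X]) :
    ev2 PowerSeries.C (PowerSeries.map σ s) (PowerSeries.map σ p) F =
      PowerSeries.map σ (ev2 PowerSeries.C p s (tau σ F)) := by
  unfold tau
  rw [map_ev2, map_ev2]
  congr 2
  · ext a n
    simp only [RingHom.comp_apply, ev2_CC]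
    rw [PowerSeries.map_C, hσ]
  · simp
  · simp

theorem tau_tau (σ : R →+* R) (hσ : ∀ a, σ (σ a) = a) (F : R[X][X]) :
    tau σ (tau σ F) = F := by
  have : (tau σ).comp (tau σ) = RingHom.id _ := by
    apply ev2_hom_ext <;> simp [hσ]
  exact congrArg (fun k : R[X][X] →+* R[X][X] => k F) this

variable {G : Type*} [Group G] (l : G →* Rˣ) (w : Monoid.Coprod G (FreeGroup Unit))

theorem sol_of_P1 (P1 : R[X][X]) (hP1 : PP l w = pv + (pv * sv - 1) * P1)
    (p s : PowerSeries R) (hps : p * s = 1 + PowerSeries.X) :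
    ev2 PowerSeries.C p s (PP l w) = p + PowerSeries.X * ev2 PowerSeries.C p s P1 := by
  rw [hP1]
  simp only [map_add, map_mul, map_sub, map_one, ev2_pv, ev2_sv]
  rw [hps]
  ring

theorem SS_eq (hl : ev l 1 w = 1) (p s : PowerSeries R) (hps : p * s = 1 + PowerSeries.X)
    (hP : ev2 PowerSeries.C p s (PP l w) = 1) :
    ev2 PowerSeries.C p s (SS l w) = 1 + PowerSeries.X *
      (ev2 PowerSeries.C p s (QQ l w) * ev2 PowerSeries.C p s (RR l w)) := by
  have h := congrArg (ev2 (PowerSeries.C (R := R)) p s) (det_rel l w hl)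
  simp only [map_sub, map_mul, map_one, ev2_pv, ev2_sv, hP, hps] at h
  linear_combination h

/-- The pair swapped and conjugated is close to the pair. -/
theorem swap_close (hl : ev l 1 w = 1) (he : expo w = Multiplicative.ofAdd 1)
    (σ : R →+* R) (hσ : ∀ a, σ (σ a) = a) (hσl : ∀ g, σ (l g) * l g = 1)
    (p s : PowerSeries R) (hs1 : PowerSeries.constantCoeff s = 1)
    (hps : p * s = 1 + PowerSeries.X)
    (hP : ev2 PowerSeries.C p s (PP l w) = 1) (i : ℕ)
    (hi : PowerSeries.X ^ i ∣ ev2 PowerSeries.C p s (QQ l w)) :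
    PowerSeries.X ^ i ∣ PowerSeries.map σ s - p ∧ PowerSeries.X ^ i ∣ PowerSeries.map σ p - s := by
  obtain ⟨P1, hP1⟩ := PP_mod l w hl he
  have hps' : PowerSeries.map σ s * PowerSeries.map σ p = 1 + PowerSeries.X := by
    rw [← map_mul, mul_comm s p, hps]; simp
  obtain ⟨hs1', hs2'⟩ := sym_rel l w hl σ hσl
  have hc : PowerSeries.constantCoeff (PowerSeries.map σ s) = 1 := by
    rw [← PowerSeries.coeff_zero_eq_constantCoeff_apply, PowerSeries.coeff_map,
      PowerSeries.coeff_zero_eq_constantCoeff_apply, hs1, map_one]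
  apply uniq_mod P1 p s _ _ hc hps hps' i
  · exact (sol_of_P1 l w P1 hP1 p s hps).symm.trans hP
  · rw [← sol_of_P1 l w P1 hP1 _ _ hps', tau_swap σ hσ]
    have e : tau σ (PP l w) = SS l w := by rw [hs1', tau_tau σ hσ]
    rw [e, SS_eq l w hl p s hps hP]
    have e2 : PowerSeries.map σ (1 + PowerSeries.X * (ev2 PowerSeries.C p s (QQ l w) *
        ev2 PowerSeries.C p s (RR l w))) - 1 =
        PowerSeries.map σ (PowerSeries.X * (ev2 PowerSeries.C p s (QQ l w) *
        ev2 PowerSeries.C p s (RR l w))) := by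
      rw [map_add, map_one]; ring
    rw [e2]
    have e3 : (PowerSeries.X : PowerSeries R) ^ i = PowerSeries.map σ (PowerSeries.X ^ i) := by
      simp
    rw [e3]
    apply _root_.map_dvd
    exact (hi.mul_right _).mul_left _

/-- If the first series is divisible by a power of the variable so is the second. -/
theorem core_two (hl : ev l 1 w = 1) (he : expo w = Multiplicative.ofAdd 1)
    (σ : R →+* R) (hσ : ∀ a, σ (σ a) = a) (hσl : ∀ g, σ (l g) * l g = 1)
    (p s : PowerSeries R) (hs1 : PowerSeries.constantCoeff s = 1)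
    (hps : p * s = 1 + PowerSeries.X)
    (hP : ev2 PowerSeries.C p s (PP l w) = 1) (i : ℕ)
    (hi : PowerSeries.X ^ i ∣ ev2 PowerSeries.C p s (QQ l w)) :
    PowerSeries.X ^ i ∣ ev2 PowerSeries.C p s (RR l w) := by
  obtain ⟨h1, h2⟩ := swap_close l w hl he σ hσ hσl p s hs1 hps hP i hi
  have h3 := ev2_congr_dvd (R := R) PowerSeries.C _ _ _ _ _ h1 h2 (RR l w)
  rw [tau_swap σ hσ, ← (sym_rel l w hl σ hσl).2] at h3
  have h4 : (PowerSeries.X : PowerSeries R) ^ i ∣
      PowerSeries.map σ (ev2 PowerSeries.C p s (QQ l w)) := by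
    have e3 : (PowerSeries.X : PowerSeries R) ^ i = PowerSeries.map σ (PowerSeries.X ^ i) := by
      simp
    rw [e3]
    exact _root_.map_dvd _ hi
  have h5 := dvd_sub h4 h3
  simpa using h5

end

end H37.Eqn
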