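import Mathlib
import Pool.Agent.H37.Eqn.CoreA

set_option autoImplicit false

namespace H37.Eqn

open Polynomial

/-- A nonconstant series with constant coefficient one is transcendental. -/
theorem transc (p : PowerSeries ℂ) (hp1 : PowerSeries.constantCoeff p = 1) (hne : p ≠ 1)
    (α : ℂ[X]) (hα : eval₂ PowerSeries.C p α = 0) : α = 0 := by
  by_contra h0
  have hs := (IsAlgClosed.splits α).eq_prod_roots
  rw [hs] at hα
  rw [eval₂_mul, eval₂_C, mul_eq_zero] at hα
  rcases hα with h | h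
  · have : α.leadingCoeff = 0 := by
      have := congrArg PowerSeries.constantCoeff h
      simpa using this
    exact h0 (leadingCoeff_eq_zero.1 this)
  · have h2 : (Multiset.map (eval₂RingHom (PowerSeries.C (R := ℂ)) p)
        (Multiset.map (fun a => X - C a) α.roots)).prod = 0 := by
      rw [← h]
      exact (map_multiset_prod (eval₂RingHom (PowerSeries.C (R := ℂ)) p) _).symm
    rw [Multiset.prod_eq_zero_iff] at h2
    simp only [Multiset.mem_map] at h2
    obtain ⟨_, ⟨a, _, rfl⟩, ha⟩ := h2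
    simp only [coe_eval₂RingHom, eval₂_sub, eval₂_X, eval₂_C, sub_eq_zero] at ha
    have : a = 1 := by
      rw [ha] at hp1
      simpa using hp1
    rw [this] at ha
    exact hne (by rw [ha]; simp)

/-- A primitive irreducible element of the kernel divides every element of the kernel. -/
theorem irr_dvd_gen {A B K L : Type*} [CommRing A] [IsDomain A] [UniqueFactorizationMonoid A]
    [Field K] [Algebra A K] [IsFractionRing A K] [CommRing B] [Field L]
    (f : A →+* B) (i : B →+* L) (hinj : Function.Injective (i.comp f)) (s : B)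
    (h F : A[X]) (hirr : Irreducible h) (hprim : h.IsPrimitive)
    (hh : eval₂ f s h = 0) (hF : eval₂ f s F = 0) : h ∣ F := by
  let θ : K →+* L := IsFractionRing.lift hinj
  have e1 : θ.comp (algebraMap A K) = i.comp f := by
    apply RingHom.ext
    intro x
    exact IsFractionRing.lift_algebraMap hinj x
  have hψ : ∀ F : A[X], eval₂ θ (i s) (F.map (algebraMap A K)) = i (eval₂ f s F) := by
    intro F
    rw [eval₂_map, e1, hom_eval₂]
  have := Classical.arbitrary (NormalizedGCDMonoid A)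
  apply hprim.dvd_of_fraction_map_dvd_fraction_map (K := K)
  have hirrK : Irreducible (h.map (algebraMap A K)) :=
    (hprim.irreducible_iff_irreducible_map_fraction_map).1 hirr
  by_contra hnd
  have hcop : IsCoprime (h.map (algebraMap A K)) (F.map (algebraMap A K)) :=
    (hirrK.coprime_iff_not_dvd).2 hnd
  obtain ⟨a, b, hab⟩ := hcop
  have := congrArg (eval₂ θ (i s)) hab
  rw [eval₂_add, eval₂_mul, eval₂_mul, hψ, hψ, hh, hF, eval₂_one] at this
  simp at this

/-- An irreducible element of the kernel divides every element of the kernel. -/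
theorem irr_dvd (p s : PowerSeries ℂ) (hp1 : PowerSeries.constantCoeff p = 1) (hne : p ≠ 1)
    (h F : ℂ[X][X]) (hirr : Irreducible h) (hh : ev2 PowerSeries.C p s h = 0)
    (hF : ev2 PowerSeries.C p s F = 0) : h ∣ F := by
  have hinj : Function.Injective (eval₂RingHom (PowerSeries.C (R := ℂ)) p) := by
    rw [injective_iff_map_eq_zero]
    intro a ha
    exact transc p hp1 hne a ha
  have hdeg : h.natDegree ≠ 0 := by
    intro hd
    rw [eq_C_of_natDegree_eq_zero hd] at hh hirr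
    simp only [ev2, coe_eval₂RingHom, eval₂_C] at hh
    have h0 := transc p hp1 hne _ hh
    rw [h0] at hirr
    simp at hirr
  have hprim : h.IsPrimitive := hirr.isPrimitive hdeg
  exact irr_dvd_gen (K := FractionRing ℂ[X]) (L := FractionRing (PowerSeries ℂ))
    (eval₂RingHom (PowerSeries.C (R := ℂ)) p) (algebraMap (PowerSeries ℂ) _)
    ((IsFractionRing.injective (PowerSeries ℂ) _).comp hinj) s h F hirr hprim hh hF

/-- An irreducible factor in the kernel. -/
theorem exists_irr (p s : PowerSeries ℂ) (F : ℂ[X][X]) (hF0 : F ≠ 0)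
    (hF : ev2 PowerSeries.C p s F = 0) :
    ∃ h, Irreducible h ∧ h ∣ F ∧ ev2 PowerSeries.C p s h = 0 := by
  obtain ⟨f, hf1, hf2⟩ := UniqueFactorizationMonoid.exists_prime_factors F hF0
  have h1 : ev2 PowerSeries.C p s f.prod = 0 := by
    obtain ⟨u, hu⟩ := hf2
    have := congrArg (ev2 (PowerSeries.C (R := ℂ)) p s) hu
    rw [map_mul, hF] at this
    have hu' : IsUnit (ev2 (PowerSeries.C (R := ℂ)) p s u) := u.isUnit.map _
    rcases mul_eq_zero.1 this with h | h
    · exact h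
    · rw [h] at hu'; simp at hu'
  rw [map_multiset_prod, Multiset.prod_eq_zero_iff] at h1
  obtain ⟨h, hh, h0⟩ := Multiset.mem_map.1 h1
  exact ⟨h, (hf1 h hh).irreducible, (Multiset.dvd_prod hh).trans hf2.dvd, h0⟩

/-- Value on the hyperbola. -/
theorem hyp_val (F : ℂ[X][X]) : ∃ (H : ℂ[X]) (a : ℕ), ∀ z : ℂ, z ≠ 0 →
    ev2 (RingHom.id ℂ) z z⁻¹ F * z ^ a = H.eval z := by
  refine ⟨(reverse F).eval X, F.natDegree, ?_⟩
  intro z hz
  have hi : Invertible z⁻¹ := invertibleOfNonzero (inv_ne_zero hz)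
  have h := eval₂_reverse_mul_pow (eval₂RingHom (RingHom.id ℂ) z) z⁻¹ F
  rw [invOf_eq_inv, inv_inv] at h
  have h2 : ev2 (RingHom.id ℂ) z z⁻¹ F = eval₂ (eval₂RingHom (RingHom.id ℂ) z) z⁻¹ F := rfl
  rw [h2, ← h, mul_assoc, ← mul_pow, inv_mul_cancel₀ hz, one_pow, mul_one]
  have h3 : (evalRingHom z) (eval₂ (RingHom.id ℂ[X]) X (reverse F)) =
      eval₂ ((evalRingHom z).comp (RingHom.id ℂ[X])) (evalRingHom z X) (reverse F) :=
    hom_eval₂ _ _ _ _
  rw [coe_evalRingHom] at h3
  have h4 : (reverse F).eval X = eval₂ (RingHom.id ℂ[X]) X (reverse F) := rfl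
  rw [h4, h3]
  congr 1
  simp

/-- factorisation on the hyperbola -/
theorem hyp_factor (h g : ℂ[X][X])
    (hg : ∀ z : ℂ, z ≠ 0 → ev2 (RingHom.id ℂ) z z⁻¹ h * ev2 (RingHom.id ℂ) z z⁻¹ g = z - 1)
    (h1 : ev2 (RingHom.id ℂ) 1 1 h = 0) :
    ∃ (c : ℂ) (j a : ℕ), c ≠ 0 ∧ ∀ z : ℂ, z ≠ 0 →
      ev2 (RingHom.id ℂ) z z⁻¹ h * z ^ a = c * z ^ j * (z - 1) := by
  obtain ⟨H, a, hH⟩ := hyp_val h
  obtain ⟨K, b, hK⟩ := hyp_val g
  have hHK : H * K = X ^ (a + b) * (X - C 1) := by
    apply Polynomial.eq_of_infinite_eval_eq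
    apply Set.Infinite.mono (s := {z : ℂ | z ≠ 0})
    · intro z hz
      simp only [Set.mem_ofPred_eq] at hz ⊢
      rw [eval_mul, ← hH z hz, ← hK z hz]
      simp only [eval_mul, eval_pow, eval_X, eval_sub, eval_C]
      linear_combination z ^ (a + b) * hg z hz
    · have : {z : ℂ | z ≠ 0} = {0}ᶜ := by ext z; simp
      rw [this]
      exact (Set.finite_singleton (0 : ℂ)).infinite_compl
  have hroot : (X - C (1 : ℂ)) ∣ H := by
    rw [dvd_iff_isRoot, IsRoot, ← hH 1 one_ne_zero]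
    simp [h1]
  obtain ⟨H', hH'⟩ := hroot
  have hne : (X - C (1 : ℂ)) ≠ 0 := X_sub_C_ne_zero 1
  have h2 : H' * K = X ^ (a + b) := by
    apply mul_left_cancel₀ hne
    rw [← mul_assoc, ← hH', hHK, mul_comm]
  have h3 : H' ∣ X ^ (a + b) := ⟨K, h2.symm⟩
  obtain ⟨j, _, u, hu⟩ := (dvd_prime_pow Polynomial.prime_X _).1 h3
  obtain ⟨c, hc, hcu⟩ := Polynomial.isUnit_iff.1 (u⁻¹).isUnit
  refine ⟨c, j, a, hc.ne_zero, ?_⟩
  intro z hz
  rw [hH z hz, hH']
  have h4 : H' = C c * X ^ j := by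
    rw [hcu, ← hu]
    rw [mul_comm, mul_assoc, Units.mul_inv, mul_one]
  rw [h4]
  simp only [eval_mul, eval_pow, eval_X, eval_sub, eval_C]
  ring

/-- The value of the twisted polynomial at a point of the unit circle. -/
theorem tau_circle (h : ℂ[X][X]) (z : ℂ) (hz : (starRingEnd ℂ) z = z⁻¹) :
    ev2 (RingHom.id ℂ) z z⁻¹ (tau (starRingEnd ℂ) h) =
      (starRingEnd ℂ) (ev2 (RingHom.id ℂ) z z⁻¹ h) := by
  unfold tau
  rw [map_ev2, map_ev2]
  have hz' : (starRingEnd ℂ) z⁻¹ = z := by rw [map_inv₀, hz, inv_inv]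
  rw [hz, hz']
  congr 2
  · ext a
    simp
  · simp
  · simp

theorem no_fixed (h : ℂ[X][X]) (c : ℂ) (j a : ℕ) (hc : c ≠ 0)
    (hz : ∀ z : ℂ, z ≠ 0 → ev2 (RingHom.id ℂ) z z⁻¹ h * z ^ a = c * z ^ j * (z - 1))
    (u : ℂ) (hu : tau (starRingEnd ℂ) h = h * C (C u)) : False := by
  -- value at minus one
  have key : ∀ z : ℂ, z ≠ 0 → (starRingEnd ℂ) z = z⁻¹ →
      (starRingEnd ℂ) (ev2 (RingHom.id ℂ) z z⁻¹ h) = ev2 (RingHom.id ℂ) z z⁻¹ h * u := by
    intro z _ hz1
    rw [← tau_circle h z hz1, hu, map_mul, ev2_CC]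
    simp
  have hI : (starRingEnd ℂ) Complex.I = Complex.I⁻¹ := by
    rw [Complex.conj_I, Complex.inv_I]
  have h1 := key (-1) (by simp) (by norm_num)
  have h2 := key Complex.I Complex.I_ne_zero hI
  have e1 := hz (-1) (by simp)
  have e2 := hz Complex.I Complex.I_ne_zero
  set A := ev2 (RingHom.id ℂ) (-1) (-1)⁻¹ h with hA
  set B := ev2 (RingHom.id ℂ) Complex.I Complex.I⁻¹ h with hB
  -- conjugates of the equations
  have e1' := congrArg (starRingEnd ℂ) e1
  have e2' := congrArg (starRingEnd ℂ) e2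
  simp only [map_mul, map_pow, map_sub, map_one, map_neg, Complex.conj_I, h1, h2] at e1' e2'
  have hm : (-1 : ℂ) ^ j ≠ 0 := pow_ne_zero _ (by norm_num)
  have hc2 : (starRingEnd ℂ) c = c * u := by
    have : (c * u) * ((-1) ^ j * (-1 - 1)) = (starRingEnd ℂ) c * ((-1) ^ j * (-1 - 1)) := by
      linear_combination e1' - u * e1
    exact (mul_right_cancel₀ (mul_ne_zero hm (by norm_num)) this).symm
  rw [hc2] at e2'
  have hu0 : u ≠ 0 := by
    intro hu0
    rw [hu0, mul_zero] at hc2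
    exact hc ((map_eq_zero _).1 hc2)
  -- multiply the second by I ^ a * I ^ j
  have hII : Complex.I ^ 2 = -1 := Complex.I_sq
  have f1 : (-Complex.I) ^ a * Complex.I ^ a = 1 := by
    rw [← mul_pow]
    have : -Complex.I * Complex.I = 1 := by linear_combination -hII
    rw [this, one_pow]
  have f2 : (-Complex.I) ^ j * Complex.I ^ j = 1 := by
    rw [← mul_pow]
    have : -Complex.I * Complex.I = 1 := by linear_combination -hII
    rw [this, one_pow]
  have g1 : c * u * ((-Complex.I) ^ j * (-Complex.I - 1) * Complex.I ^ a) =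
      c * u * (Complex.I ^ j * (Complex.I - 1) * (-Complex.I) ^ a) := by
    linear_combination (-Complex.I ^ a) * e2' + (-Complex.I) ^ a * u * e2
  have g2 := mul_left_cancel₀ (mul_ne_zero hc hu0) g1
  have g3 : (Complex.I - 1) * (Complex.I * (Complex.I ^ a) ^ 2) =
      (Complex.I - 1) * (Complex.I ^ j) ^ 2 := by
    linear_combination (Complex.I ^ j * Complex.I ^ a) * g2
      - (Complex.I ^ a) ^ 2 * (-Complex.I - 1) * f2 + (Complex.I ^ j) ^ 2 * (Complex.I - 1) * f1
      + (Complex.I ^ a) ^ 2 * hII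
  have hI1 : Complex.I - 1 ≠ 0 := by
    intro h0
    have := congrArg Complex.im h0
    simp at this
  have g4 := mul_left_cancel₀ hI1 g3
  have k1 : (Complex.I ^ a) ^ 4 = 1 := by
    rw [← pow_mul, mul_comm, pow_mul, Complex.I_pow_four, one_pow]
  have k2 : (Complex.I ^ j) ^ 4 = 1 := by
    rw [← pow_mul, mul_comm, pow_mul, Complex.I_pow_four, one_pow]
  have g5 : (-1 : ℂ) = 1 := by
    have : (Complex.I * (Complex.I ^ a) ^ 2) ^ 2 = ((Complex.I ^ j) ^ 2) ^ 2 := by rw [g4]
    linear_combination this - (Complex.I ^ a) ^ 4 * hII + k1 + k2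
  norm_num at g5

theorem eq_of_all_dvd (a b : PowerSeries ℂ) (h : ∀ i : ℕ, PowerSeries.X ^ i ∣ a - b) : a = b := by
  ext n
  have := h (n + 1)
  rw [PowerSeries.X_pow_dvd_iff] at this
  have := this n (Nat.lt_succ_self n)
  rwa [map_sub, sub_eq_zero] at this

variable {G : Type*} [Group G]

/-- The first series is not zero for unitary coefficients. -/
theorem core_one (l : G →* ℂˣ) (w : Monoid.Coprod G (FreeGroup Unit))
    (hl : ev l 1 w = 1) (he : expo w = Multiplicative.ofAdd 1)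
    (hσl : ∀ g, (starRingEnd ℂ) (l g) * l g = 1)
    (p s : PowerSeries ℂ) (hp1 : PowerSeries.constantCoeff p = 1)
    (hs1 : PowerSeries.constantCoeff s = 1)
    (hps : p * s = 1 + PowerSeries.X)
    (hP : ev2 PowerSeries.C p s (PP l w) = 1) :
    ev2 PowerSeries.C p s (QQ l w) ≠ 0 := by
  intro hQ
  have hconj : ∀ a : ℂ, (starRingEnd ℂ) ((starRingEnd ℂ) a) = a := Complex.conj_conj
  have hcl := fun i => swap_close l w hl he (starRingEnd ℂ) hconj hσl p s hs1 hps hP i
    (by rw [hQ]; exact dvd_zero _)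
  have hsp : PowerSeries.map (starRingEnd ℂ) s = p := eq_of_all_dvd _ _ fun i => (hcl i).1
  have hps' : PowerSeries.map (starRingEnd ℂ) p = s := eq_of_all_dvd _ _ fun i => (hcl i).2
  have hne : p ≠ 1 := by
    intro h1
    rw [h1, map_one] at hps'
    rw [h1, ← hps', one_mul] at hps
    have := congrArg (PowerSeries.coeff 1) hps
    simp [PowerSeries.coeff_one] at this
  have hv : ∀ z : ℂ, z ≠ 0 → ev2 (RingHom.id ℂ) z z⁻¹ (PP l w - 1) = z - 1 := by
    intro z hz
    rw [map_sub, map_one, PP_diag l w hl he (RingHom.id ℂ) z z⁻¹ (mul_inv_cancel₀ hz)]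
  have hF0 : PP l w - 1 ≠ 0 := by
    intro h0
    have := hv 2 two_ne_zero
    rw [h0, map_zero] at this
    norm_num at this
  have hF : ev2 PowerSeries.C p s (PP l w - 1) = 0 := by rw [map_sub, hP, map_one, sub_self]
  obtain ⟨h, hirr, ⟨g, hg⟩, hh⟩ := exists_irr p s _ hF0 hF
  have h11 : ev2 (RingHom.id ℂ) 1 1 h = 0 := by
    have := congrArg PowerSeries.constantCoeff hh
    rw [map_ev2, hp1, hs1, map_zero] at this
    rw [← this]
    congr 2
  obtain ⟨c, j, a, hc, hz⟩ := hyp_factor h g (by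
    intro z hz
    rw [← map_mul, ← hg, hv z hz]) h11
  have ht : ev2 PowerSeries.C p s (tau (starRingEnd ℂ) h) = 0 := by
    have h1 := tau_swap (starRingEnd ℂ) hconj p s h
    rw [hsp, hps', hh] at h1
    have h2 := congrArg (PowerSeries.map (starRingEnd ℂ)) h1
    rw [map_zero] at h2
    rw [h2]
    ext n
    simp
  obtain ⟨k, hk⟩ := irr_dvd p s hp1 hne h _ hirr hh ht
  have hkt : k * tau (starRingEnd ℂ) k = 1 := by
    have h1 := congrArg (tau (starRingEnd ℂ)) hk
    rw [tau_tau _ hconj, map_mul, hk] at h1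
    apply mul_left_cancel₀ hirr.ne_zero
    rw [← mul_assoc, ← h1, mul_one]
  obtain ⟨u', hu', hku⟩ := Polynomial.isUnit_iff.1 (IsUnit.of_mul_eq_one _ hkt)
  obtain ⟨u, _, huu⟩ := Polynomial.isUnit_iff.1 hu'
  rw [← hku, ← huu] at hk
  exact no_fixed h c j a hc hz u hk

end H37.Eqn
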