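import Mathlib
import Pool.Agent.H37.Eqn.Basic

set_option autoImplicit false

namespace H37.Eqn

open Finset

/-- Power series in two variables. -/
abbrev PP2 (A : Type*) [CommRing A] := PowerSeries (PowerSeries A)

section
variable {A : Type*} [CommRing A]

/-- Coefficients. -/
noncomputable def cf (j l : ℕ) (F : PP2 A) : A := PowerSeries.coeff l (PowerSeries.coeff j F)

theorem cf_mul (j l : ℕ) (F H : PP2 A) :
    cf j l (F * H) = ∑ x ∈ antidiagonal j, ∑ y ∈ antidiagonal l,
      cf x.1 y.1 F * cf x.2 y.2 H := by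
  unfold cf
  rw [PowerSeries.coeff_mul, map_sum]
  refine Finset.sum_congr rfl fun x _ => ?_
  rw [PowerSeries.coeff_mul]

theorem cf_add (j l : ℕ) (F H : PP2 A) : cf j l (F + H) = cf j l F + cf j l H := by
  simp [cf]
theorem cf_sub (j l : ℕ) (F H : PP2 A) : cf j l (F - H) = cf j l F - cf j l H := by
  simp [cf]
theorem cf_zero (j l : ℕ) : cf j l (0 : PP2 A) = 0 := by
  simp [cf]

theorem cf_ext {F H : PP2 A} (h : ∀ j l, cf j l F = cf j l H) : F = H := by
  ext j l
  exact h j l

/-- Elements whose coefficients in a lower set are killed. -/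
def van {B : Type*} [CommRing B] (χ : A →+* B) (Δ : ℕ → ℕ → Prop)
    (hΔ : ∀ j l j' l', Δ j l → j' ≤ j → l' ≤ l → Δ j' l') : Ideal (PP2 A) where
  carrier := {F | ∀ j l, Δ j l → χ (cf j l F) = 0}
  zero_mem' := by intro j l _; rw [cf_zero, map_zero]
  add_mem' := by
    intro F H hF hH j l hjl
    rw [cf_add, map_add, hF j l hjl, hH j l hjl, add_zero]
  smul_mem' := by
    intro H F hF j l hjl
    rw [smul_eq_mul, cf_mul, map_sum]
    refine Finset.sum_eq_zero fun x hx => ?_
    rw [map_sum]
    refine Finset.sum_eq_zero fun y hy => ?_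
    rw [HasAntidiagonal.mem_antidiagonal] at hx hy
    rw [map_mul, hF x.2 y.2 (hΔ _ _ _ _ hjl (by omega) (by omega)),
      mul_zero]

theorem mem_van {B : Type*} [CommRing B] (χ : A →+* B) (Δ : ℕ → ℕ → Prop)
    (hΔ : ∀ j l j' l', Δ j l → j' ≤ j → l' ≤ l → Δ j' l') (F : PP2 A) :
    F ∈ van χ Δ hΔ ↔ ∀ j l, Δ j l → χ (cf j l F) = 0 := Iff.rfl

/-- Series of order at least `k`, up to the kernel of `χ`. -/
def ordI {B : Type*} [CommRing B] (χ : A →+* B) (k : ℕ) : Ideal (PP2 A) :=
  van χ (fun j l => j + l < k) (by intro j l j' l' h h1 h2; omega)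

theorem mem_ordI {B : Type*} [CommRing B] (χ : A →+* B) (k : ℕ) (F : PP2 A) :
    F ∈ ordI χ k ↔ ∀ j l, j + l < k → χ (cf j l F) = 0 := Iff.rfl

theorem ordI_mul {B : Type*} [CommRing B] (χ : A →+* B) (k : ℕ) :
    ordI χ 1 * ordI χ k ≤ ordI χ (k + 1) := by
  rw [Ideal.mul_le]
  intro F hF H hH
  rw [mem_ordI] at hF hH ⊢
  intro j l hjl
  rw [cf_mul, map_sum]
  refine Finset.sum_eq_zero fun x hx => ?_
  rw [map_sum]
  refine Finset.sum_eq_zero fun y hy => ?_
  rw [HasAntidiagonal.mem_antidiagonal] at hx hy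
  rw [map_mul]
  by_cases h : x.1 + y.1 < 1
  · rw [hF _ _ h, zero_mul]
  · rw [hH _ _ (by omega), mul_zero]

theorem ordI_pow {B : Type*} [CommRing B] (χ : A →+* B) (k : ℕ) :
    ordI χ 1 ^ k ≤ ordI χ k := by
  induction k with
  | zero =>
    intro F _
    rw [mem_ordI]
    intro j l h
    omega
  | succ k ih =>
    rw [pow_succ']
    exact (Ideal.mul_mono_right ih).trans (ordI_mul χ k)

/-- Constant coefficient. -/
noncomputable def c0 : PP2 A →+* A :=
  (PowerSeries.constantCoeff (R := A)).comp (PowerSeries.constantCoeff (R := PowerSeries A))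

theorem c0_eq (F : PP2 A) : c0 F = cf 0 0 F := by
  simp [c0, cf]

/-- Constants. -/
noncomputable def cc : A →+* PP2 A :=
  (PowerSeries.C (R := PowerSeries A)).comp (PowerSeries.C (R := A))

@[simp] theorem c0_cc (a : A) : c0 (cc a) = a := by simp [c0, cc]

theorem cf_cc_mul (a : A) (j l : ℕ) (F : PP2 A) : cf j l (cc a * F) = a * cf j l F := by
  simp [cf, cc]

/-- Substitution of the product of the variables. -/
noncomputable def io : PowerSeries A →+* PP2 A :=
  (PowerSeries.rescale (PowerSeries.X : PowerSeries A)).comp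
    (PowerSeries.map (PowerSeries.C (R := A)))

theorem cf_io (j l : ℕ) (F : PowerSeries A) :
    cf j l (io F) = if l = j then PowerSeries.coeff j F else 0 := by
  simp only [cf, io, RingHom.comp_apply, PowerSeries.coeff_rescale, PowerSeries.coeff_map]
  rw [PowerSeries.coeff_X_pow_mul']
  by_cases h : j ≤ l
  · rw [if_pos h, PowerSeries.coeff_C]
    by_cases h2 : l = j
    · simp [h2]
    · rw [if_neg (by omega), if_neg h2]
  · rw [if_neg h, if_neg (by omega)]

/-- The first variable. -/
noncomputable def qv : PP2 A := PowerSeries.C (PowerSeries.X)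
/-- The second variable. -/
noncomputable def rv : PP2 A := PowerSeries.X

theorem io_X : io (PowerSeries.X : PowerSeries A) = qv * rv := by
  simp [io, qv, rv]

theorem io_C (a : A) : io (PowerSeries.C a) = cc a := by
  apply cf_ext
  intro j l
  rw [cf_io]
  simp only [cf, cc, RingHom.comp_apply, PowerSeries.coeff_C]
  by_cases h : j = 0
  · by_cases h' : l = 0
    · simp [h, h']
    · rw [if_neg (by omega), if_pos h, PowerSeries.coeff_C, if_neg h']
  · rw [if_neg h]
    split_ifs <;> simp

theorem c0_io (F : PowerSeries A) : c0 (io F) = PowerSeries.constantCoeff F := by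
  rw [c0_eq, cf_io]; simp

theorem c0_qv : c0 (qv : PP2 A) = 0 := by simp [c0, qv]
theorem c0_rv : c0 (rv : PP2 A) = 0 := by simp [c0, rv]

theorem cf_qv_mul (j l : ℕ) (F : PP2 A) :
    cf j l (qv * F) = if l = 0 then 0 else cf j (l - 1) F := by
  unfold cf qv
  rw [PowerSeries.coeff_C_mul]
  cases l with
  | zero => simp
  | succ l => rw [PowerSeries.coeff_succ_X_mul]; simp

theorem cf_rv_mul (j l : ℕ) (F : PP2 A) :
    cf j l (rv * F) = if j = 0 then 0 else cf (j - 1) l F := by
  unfold cf rv
  cases j with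
  | zero => simp
  | succ j => rw [PowerSeries.coeff_succ_X_mul]; simp

/-- The map induced on coefficients. -/
noncomputable def mp {B : Type*} [CommRing B] (f : A →+* B) : PP2 A →+* PP2 B :=
  PowerSeries.map (PowerSeries.map f)

theorem cf_mp {B : Type*} [CommRing B] (f : A →+* B) (j l : ℕ) (F : PP2 A) :
    cf j l (mp f F) = f (cf j l F) := by
  simp [cf, mp]

theorem c0_mp {B : Type*} [CommRing B] (f : A →+* B) (F : PP2 A) :
    c0 (mp f F) = f (c0 F) := by
  rw [c0_eq, c0_eq, cf_mp]

theorem mp_cc {B : Type*} [CommRing B] (f : A →+* B) (a : A) :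
    mp f (cc a) = cc (f a) := by
  simp [mp, cc]

theorem mp_qv {B : Type*} [CommRing B] (f : A →+* B) : mp f qv = qv := by
  simp [mp, qv]
theorem mp_rv {B : Type*} [CommRing B] (f : A →+* B) : mp f rv = rv := by
  simp [mp, rv]

theorem mp_io {B : Type*} [CommRing B] (f : A →+* B) (F : PowerSeries A) :
    mp f (io F) = io (PowerSeries.map f F) := by
  apply cf_ext
  intro j l
  rw [cf_mp, cf_io, cf_io]
  split_ifs <;> simp

end

/-- The ideal which we divide out. -/
noncomputable def nI {R : Type*} [CommRing R] (Q S : PowerSeries R) (M : ℕ) : Ideal (PP2 R) :=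
  Ideal.span {rv * io S} ⊔ ordI (RingHom.id R) 1 * Ideal.span {qv * io Q} ⊔
    ordI (RingHom.id R) M

/-- The nonvanishing criterion. -/
theorem nI_crit {R B : Type*} [CommRing R] [CommRing B] [IsDomain B] (Q S : PowerSeries R) (M : ℕ)
    (χ : R →+* B) (i : ℕ)
    (hQ : ∀ j < i, χ (PowerSeries.coeff j Q) = 0) (hQi : χ (PowerSeries.coeff i Q) ≠ 0)
    (hS : ∀ j < i, χ (PowerSeries.coeff j S) = 0) (hM : 2 * i + 2 ≤ M) (a : R)
    (ha : cc a * (qv * io Q) ∈ nI Q S M) : χ a = 0 := by
  let N : Ideal (PP2 R) := van χ (fun j l => j ≤ i ∧ l ≤ i + 1)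
    (by intro j l j' l' h h1 h2; omega)
  have hle : nI Q S M ≤ N := by
    unfold nI
    refine sup_le (sup_le ?_ ?_) ?_
    · rw [Ideal.span_singleton_le_iff_mem]
      intro j l hjl
      rw [cf_rv_mul]
      split_ifs with h
      · simp
      · rw [cf_io]
        split_ifs with h2
        · exact hS _ (by omega)
        · simp
    · rw [Ideal.mul_le]
      intro m hm f hf
      obtain ⟨f', rfl⟩ := Ideal.mem_span_singleton'.1 hf
      have : m * (f' * (qv * io Q)) = f' * (m * (qv * io Q)) := by ring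
      rw [this]
      apply Ideal.mul_mem_left
      intro j l hjl
      rw [cf_mul, map_sum]
      refine Finset.sum_eq_zero fun x hx => ?_
      rw [map_sum]
      refine Finset.sum_eq_zero fun y hy => ?_
      rw [HasAntidiagonal.mem_antidiagonal] at hx hy
      rw [map_mul]
      by_cases h0 : x.1 + y.1 < 1
      · have := hm x.1 y.1 h0
        rw [RingHom.id_apply] at this
        rw [this]; simp
      · rw [cf_qv_mul]
        split_ifs with h3
        · simp
        · rw [cf_io]
          split_ifs with h4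
          · rw [hQ _ (by omega), mul_zero]
          · simp
    · intro F hF j l hjl
      have := hF j l (by omega)
      rw [RingHom.id_apply] at this
      rw [this, map_zero]
  have h1 := hle ha i (i + 1) ⟨le_rfl, le_rfl⟩
  rw [cf_cc_mul, cf_qv_mul, if_neg (by omega), cf_io, if_pos (by omega), map_mul] at h1
  rcases mul_eq_zero.1 h1 with h | h
  · exact h
  · exact absurd h hQi

end H37.Eqn
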