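import Mathlib
import Pool.Agent.H37.Eqn.CoreB
import Pool.Agent.H37.Eqn.Chars
import Pool.Agent.H37.Eqn.Van

set_option autoImplicit false

namespace H37.Eqn

open Polynomial

section
variable {G : Type*} [Group G] {D : Type*} [CommGroup D] (π : G →* D)
  (w : Monoid.Coprod G (FreeGroup Unit))

/-- The coefficients in the group ring of the abelian quotient. -/
noncomputable def lR : G →* (MonoidAlgebra ℤ D)ˣ :=
  (Units.map (MonoidAlgebra.of ℤ D)).comp ((toUnits (G := D)).toMonoidHom.comp π)

theorem lR_val (g : G) : ((lR π g : (MonoidAlgebra ℤ D)ˣ) : MonoidAlgebra ℤ D) =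
    MonoidAlgebra.single (π g) 1 := rfl

theorem lR_one (hw : ev π 1 w = 1) : ev (lR π) 1 w = 1 := by
  have h := map_ev ((Units.map (MonoidAlgebra.of ℤ D)).comp (toUnits (G := D)).toMonoidHom) π 1 w
  rw [hw, map_one] at h
  exact h.symm

theorem ev2_map_series {R B : Type*} [CommRing R] [CommRing B] (f : R →+* B)
    (p s : PowerSeries R) (F : R[X][X]) :
    ev2 PowerSeries.C (PowerSeries.map f p) (PowerSeries.map f s)
      (ev2 ((C.comp C : B →+* B[X][X]).comp f) pv sv F) =
      PowerSeries.map f (ev2 PowerSeries.C p s F) := by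
  rw [ev2_push, map_ev2]
  congr 2
  ext a n
  simp

theorem exists_series (hw : ev π 1 w = 1) (he : expo w = Multiplicative.ofAdd 1) :
    ∃ p s : PowerSeries (MonoidAlgebra ℤ D),
      PowerSeries.constantCoeff p = 1 ∧ PowerSeries.constantCoeff s = 1 ∧
      p * s = 1 + PowerSeries.X ∧ ev2 PowerSeries.C p s (PP (lR π) w) = 1 ∧
      ∃ N : ℕ, ∀ f : D →* Circle, ∃ i ≤ N,
        (∀ j < i, chi f (PowerSeries.coeff j (ev2 PowerSeries.C p s (QQ (lR π) w))) = 0) ∧
        chi f (PowerSeries.coeff i (ev2 PowerSeries.C p s (QQ (lR π) w))) ≠ 0 ∧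
        (∀ j < i, chi f (PowerSeries.coeff j (ev2 PowerSeries.C p s (RR (lR π) w))) = 0) := by
  have hl := lR_one π w hw
  obtain ⟨P1, hP1⟩ := PP_mod (lR π) w hl he
  obtain ⟨p, s, hp1, hs1, hps, hfix⟩ := exists_ps P1
  have hP : ev2 PowerSeries.C p s (PP (lR π) w) = 1 := by
    rw [sol_of_P1 (lR π) w P1 hP1 p s hps, hfix]
  refine ⟨p, s, hp1, hs1, hps, hP, ?_⟩
  set Q := ev2 PowerSeries.C p s (QQ (lR π) w) with hQ
  set S := ev2 PowerSeries.C p s (RR (lR π) w) with hS
  -- specialisation
  have spec : ∀ f : D →* Circle, PowerSeries.map (chi f) Q ≠ 0 ∧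
      ∀ i, PowerSeries.X ^ i ∣ PowerSeries.map (chi f) Q →
        PowerSeries.X ^ i ∣ PowerSeries.map (chi f) S := by
    intro f
    let l' : G →* ℂˣ := push (lR π) (chi f)
    have hl' : ev l' 1 w = 1 := by
      have h := map_ev (Units.map (chi f).toMonoidHom) (lR π) 1 w
      rw [hl, map_one] at h
      exact h.symm
    have hσl : ∀ g, (starRingEnd ℂ) (l' g) * l' g = 1 := by
      intro g
      have h1 : ((l' g : ℂˣ) : ℂ) = (f (π g) : ℂ) := by
        simp only [l', push_val, lR_val]
        exact chi_single f (π g)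
      rw [h1, ← Circle.coe_inv_eq_conj, ← Circle.coe_mul, inv_mul_cancel, Circle.coe_one]
    have hc : ∀ F : PowerSeries (MonoidAlgebra ℤ D), PowerSeries.constantCoeff F = 1 →
        PowerSeries.constantCoeff (PowerSeries.map (chi f) F) = 1 := by
      intro F hF
      rw [← PowerSeries.coeff_zero_eq_constantCoeff_apply, PowerSeries.coeff_map,
        PowerSeries.coeff_zero_eq_constantCoeff_apply, hF, map_one]
    have hps' : PowerSeries.map (chi f) p * PowerSeries.map (chi f) s = 1 + PowerSeries.X := by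
      rw [← map_mul, hps]; simp
    have hP' : ev2 PowerSeries.C (PowerSeries.map (chi f) p) (PowerSeries.map (chi f) s)
        (PP l' w) = 1 := by
      simp only [l']
      rw [PP_map, ev2_map_series, hP, map_one]
    have hQ' : ev2 PowerSeries.C (PowerSeries.map (chi f) p) (PowerSeries.map (chi f) s)
        (QQ l' w) = PowerSeries.map (chi f) Q := by
      simp only [l']
      rw [QQ_map, ev2_map_series]
    have hS' : ev2 PowerSeries.C (PowerSeries.map (chi f) p) (PowerSeries.map (chi f) s)
        (RR l' w) = PowerSeries.map (chi f) S := by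
      simp only [l']
      rw [RR_map, ev2_map_series]
    constructor
    · rw [← hQ']
      exact core_one l' w hl' he hσl _ _ (hc p hp1) (hc s hs1) hps' hP'
    · intro i hi
      rw [← hQ'] at hi
      rw [← hS']
      exact core_two l' w hl' he (starRingEnd ℂ) Complex.conj_conj hσl _ _ (hc s hs1) hps' hP' i hi
  obtain ⟨N, hN⟩ := uniform_bound (fun i => PowerSeries.coeff i Q) (by
    intro f
    by_contra hcon
    push Not at hcon
    apply (spec f).1
    ext n
    rw [PowerSeries.coeff_map, hcon n]; simp)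
  refine ⟨N, fun f => ?_⟩
  classical
  obtain ⟨k, hk, hkf⟩ := hN f
  have hex : ∃ i, chi f (PowerSeries.coeff i Q) ≠ 0 := ⟨k, hkf⟩
  refine ⟨Nat.find hex, (Nat.find_min' hex hkf).trans hk, ?_, Nat.find_spec hex, ?_⟩
  · intro j hj
    have := Nat.find_min hex hj
    push Not at this
    exact this
  · have hdvd : PowerSeries.X ^ (Nat.find hex) ∣ PowerSeries.map (chi f) Q := by
      rw [PowerSeries.X_pow_dvd_iff]
      intro j hj
      rw [PowerSeries.coeff_map]
      have := Nat.find_min hex hj
      push Not at this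
      exact this
    have h2 := (spec f).2 _ hdvd
    rw [PowerSeries.X_pow_dvd_iff] at h2
    intro j hj
    have := h2 j hj
    rwa [PowerSeries.coeff_map] at this

/-- The key nonvanishing statement. -/
theorem key_lemma (Q S : PowerSeries (MonoidAlgebra ℤ D)) (N : ℕ)
    (h : ∀ f : D →* Circle, ∃ i ≤ N,
        (∀ j < i, chi f (PowerSeries.coeff j Q) = 0) ∧
        chi f (PowerSeries.coeff i Q) ≠ 0 ∧
        (∀ j < i, chi f (PowerSeries.coeff j S) = 0))
    (a : MonoidAlgebra ℤ D) (ha : cc a * (qv * io Q) ∈ nI Q S (2 * N + 2)) : a = 0 := by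
  apply eq_zero_of_chi
  intro f
  obtain ⟨i, hi, h1, h2, h3⟩ := h f
  exact nI_crit Q S _ (chi f) i h1 h2 h3 (by omega) a ha

end

end H37.Eqn
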