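import Mathlib
import Pool.Agent.H37.Eqn.Basic

set_option autoImplicit false

namespace H37.Eqn

open Matrix

/-- A chain of subgroups with successive commutators gives solvability. -/
theorem solvable_of_chain {Γ : Type*} [Group Γ] (K : ℕ → Subgroup Γ) (N : ℕ)
    (h0 : K 0 = ⊤) (hN : K N = ⊥) (hK : ∀ n, ∀ a ∈ K n, ∀ b ∈ K n, a * b * a⁻¹ * b⁻¹ ∈ K (n + 1)) :
    Group.IsSolvable Γ := by
  have h : ∀ n, derivedSeries Γ n ≤ K n := by
    intro n
    induction n with
    | zero => rw [h0]; exact le_top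
    | succ n ih =>
      rw [derivedSeries_succ, Subgroup.commutator_le]
      intro a ha b hb
      rw [commutatorElement_def]
      exact hK n a (ih ha) b (ih hb)
  exact ⟨⟨N, by rw [eq_bot_iff, ← hN]; exact h N⟩⟩

/-- A group of matrices over a ring which becomes commutative modulo a nilpotent ideal
is solvable. -/
theorem solvable_mats {B : Type*} [CommRing B] (I : Ideal B) (N : ℕ) (hN : I ^ N = ⊥)
    (S : Subgroup (M2 B)ˣ)
    (hS : ∀ a ∈ S, ∀ b ∈ S, ∀ i j, ((a : M2 B) * b) i j - ((b : M2 B) * a) i j ∈ I) :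
    Group.IsSolvable S := by
  let f : (n : ℕ) → S →* (M2 (B ⧸ I ^ n))ˣ := fun n =>
    (mapU (Ideal.Quotient.mk (I ^ n))).comp S.subtype
  have hf1 : ∀ n (a : S), f n a = 1 ↔ ∀ i j, ((a : (M2 B)ˣ) : M2 B) i j - (1 : M2 B) i j ∈ I ^ n := by
    intro n a
    constructor
    · intro h i j
      have h1 := congrArg (fun u : (M2 (B ⧸ I ^ n))ˣ => (u : M2 (B ⧸ I ^ n)) i j) h
      simp only [f, MonoidHom.comp_apply, mapU_val, Units.val_one] at h1
      have h2 : (Ideal.Quotient.mk (I ^ n)) ((1 : M2 B) i j) = (1 : M2 (B ⧸ I ^ n)) i j := by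
        rw [Matrix.one_apply, Matrix.one_apply]
        split_ifs <;> simp
      rw [← Ideal.Quotient.eq, h2]
      exact h1
    · intro h
      apply Units.ext
      ext i j
      simp only [f, MonoidHom.comp_apply, mapU_val, Units.val_one]
      have h2 : (Ideal.Quotient.mk (I ^ n)) ((1 : M2 B) i j) = (1 : M2 (B ⧸ I ^ n)) i j := by
        rw [Matrix.one_apply, Matrix.one_apply]
        split_ifs <;> simp
      rw [← h2]
      exact Ideal.Quotient.eq.2 (h i j)
  have hcomm : ∀ n (a b : S), (∀ i j, (((a : (M2 B)ˣ) : M2 B) * ((b : (M2 B)ˣ) : M2 B)) i j -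
      (((b : (M2 B)ˣ) : M2 B) * ((a : (M2 B)ˣ) : M2 B)) i j ∈ I ^ n) →
      f n (a * b * a⁻¹ * b⁻¹) = 1 := by
    intro n a b h
    rw [map_mul, map_mul, map_mul, map_inv, map_inv, mul_inv_eq_one, mul_inv_eq_iff_eq_mul,
      ← map_mul, ← map_mul]
    apply Units.ext
    ext i j
    simp only [f, MonoidHom.comp_apply, mapU_val]
    exact Ideal.Quotient.eq.2 (h i j)
  apply solvable_of_chain (fun n => (f n).ker) N
  · rw [eq_top_iff]
    intro a _
    rw [MonoidHom.mem_ker, hf1]
    intro i j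
    rw [pow_zero, Ideal.one_eq_top]
    trivial
  · rw [eq_bot_iff]
    intro a ha
    rw [MonoidHom.mem_ker, hf1] at ha
    rw [Subgroup.mem_bot]
    apply Subtype.ext
    apply Units.ext
    ext i j
    have := ha i j
    rw [hN, Ideal.mem_bot, sub_eq_zero] at this
    exact this
  · intro n a ha b hb
    rw [MonoidHom.mem_ker] at ha hb ⊢
    apply hcomm
    rcases Nat.eq_zero_or_pos n with rfl | hn
    · intro i j
      rw [zero_add, pow_one]
      exact hS a a.2 b b.2 i j
    · rw [hf1] at ha hb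
      intro i j
      have hle : I ^ n * I ^ n ≤ I ^ (n + 1) := by
        rw [← pow_add]
        exact Ideal.pow_le_pow_right (by omega)
      set A : M2 B := ((a : (M2 B)ˣ) : M2 B)
      set C : M2 B := ((b : (M2 B)ˣ) : M2 B)
      have e : (A * C) i j - (C * A) i j =
          ((A - 1) * (C - 1)) i j - ((C - 1) * (A - 1)) i j := by
        have e0 : A * C - C * A = (A - 1) * (C - 1) - (C - 1) * (A - 1) := by noncomm_ring
        rw [← Matrix.sub_apply, ← Matrix.sub_apply, e0]
      rw [e]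
      apply sub_mem
      · rw [Matrix.mul_apply]
        exact sum_mem fun k _ => hle (Ideal.mul_mem_mul (ha i k) (hb k j))
      · rw [Matrix.mul_apply]
        exact sum_mem fun k _ => hle (Ideal.mul_mem_mul (hb i k) (ha k j))

/-- The same statement with the commutativity read after a ring homomorphism. -/
theorem solvable_mats' {B B' : Type*} [CommRing B] [CommRing B'] (I : Ideal B) (N : ℕ)
    (hN : I ^ N = ⊥) (ρ : B →+* B') (hρ : ∀ b, ρ b = 0 → b ∈ I) (S : Subgroup (M2 B)ˣ)
    (hS : ∀ a ∈ S, ∀ b ∈ S, mapU ρ (a * b) = mapU ρ (b * a)) : Group.IsSolvable S := by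
  apply solvable_mats I N hN S
  intro a ha b hb i j
  apply hρ
  have h1 := hS a ha b hb
  have h2 := congrArg (fun U : (M2 B')ˣ => (U : M2 B') i j) h1
  simp only [mapU_val] at h2
  rw [map_sub, sub_eq_zero]
  exact h2

end H37.Eqn
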