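import Mathlib
import Pool.Agent.H37.Eqn.Series
import Pool.Agent.H37.Eqn.Solv

set_option autoImplicit false

namespace H37.Eqn

open Polynomial Matrix

section
variable {R T : Type*} [CommRing R] [CommRing T] (τ : T →+* R) (i₀ : R →+* T)
  (hsec : ∀ a, τ (i₀ a) = a) (hsq : ∀ x y, τ x = 0 → τ y = 0 → x * y = 0)
  (Q S : PowerSeries R) (M : ℕ) (κ : T) (hκ : τ κ = 0)

/-- The ideal of relations. -/
def kI : Ideal (PP2 T) where
  carrier := {F | ∃ a : R, mp τ F - cc a * (qv * io Q) ∈ nI Q S M ∧ c0 F = i₀ a * κ}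
  zero_mem' := ⟨0, by simp, by simp⟩
  add_mem' := by
    rintro F H ⟨a, ha, ha'⟩ ⟨b, hb, hb'⟩
    refine ⟨a + b, ?_, ?_⟩
    · have := add_mem ha hb
      convert this using 1
      rw [map_add, map_add]
      ring
    · rw [map_add, map_add, ha', hb']
      ring
  smul_mem' := by
    rintro H F ⟨a, ha, ha'⟩
    refine ⟨τ (c0 H) * a, ?_, ?_⟩
    · have h1 : mp τ H - cc (τ (c0 H)) ∈ ordI (RingHom.id R) 1 := by
        rw [mem_ordI]
        intro j l hjl
        obtain ⟨rfl, rfl⟩ : j = 0 ∧ l = 0 := by omega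
        rw [RingHom.id_apply, ← c0_eq, map_sub, c0_mp, c0_cc, sub_self]
      have h2 : (mp τ H - cc (τ (c0 H))) * (qv * io Q) ∈ nI Q S M := by
        apply Ideal.mem_sup_left
        apply Ideal.mem_sup_right
        exact Ideal.mul_mem_mul h1 (Ideal.mem_span_singleton_self _)
      have h3 := add_mem (Ideal.mul_mem_left _ (mp τ H) ha) (Ideal.mul_mem_left _ (cc a) h2)
      convert h3 using 1
      rw [smul_eq_mul, map_mul, map_mul]
      ring
    · rw [smul_eq_mul, map_mul, ha', map_mul]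
      have h1 : (c0 H - i₀ (τ (c0 H))) * κ = 0 := by
        apply hsq _ _ _ hκ
        rw [map_sub, hsec, sub_self]
      linear_combination (i₀ a) * h1

theorem mem_kI (F : PP2 T) : F ∈ kI τ i₀ hsec hsq Q S M κ hκ ↔
    ∃ a : R, mp τ F - cc a * (qv * io Q) ∈ nI Q S M ∧ c0 F = i₀ a * κ := Iff.rfl

/-- constants in the ideal are zero -/
theorem cc_mem_kI (hkey : ∀ a : R, cc a * (qv * io Q) ∈ nI Q S M → a = 0) (t : T)
    (ht : τ t = 0) (h : cc t ∈ kI τ i₀ hsec hsq Q S M κ hκ) : t = 0 := by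
  obtain ⟨a, ha, ha'⟩ := (mem_kI τ i₀ hsec hsq Q S M κ hκ _).1 h
  rw [mp_cc, ht, map_zero, zero_sub] at ha
  have h2 := hkey a ((neg_mem_iff).1 ha)
  rw [c0_cc, h2, map_zero, zero_mul] at ha'
  exact ha'

theorem cc_mem_kI' (a : T) (h : cc a ∈ kI τ i₀ hsec hsq Q S M κ hκ) : τ a = 0 := by
  obtain ⟨b, _, hb⟩ := (mem_kI τ i₀ hsec hsq Q S M κ hκ _).1 h
  rw [c0_cc] at hb
  rw [hb, map_mul, hκ, mul_zero]

/-- the augmentation ideal is nilpotent modulo the ideal of relations -/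
theorem pow_le_kI : (ordI τ 1) ^ (M + 2) ≤ kI τ i₀ hsec hsq Q S M κ hκ := by
  intro F hF
  rw [mem_kI]
  refine ⟨0, ?_, ?_⟩
  · rw [map_zero, zero_mul, sub_zero]
    apply Ideal.mem_sup_right
    have h1 := ordI_pow τ (M + 2) hF
    rw [mem_ordI] at h1 ⊢
    intro j l hjl
    rw [RingHom.id_apply, cf_mp]
    exact h1 j l (by omega)
  · rw [map_zero, zero_mul]
    have h1 : (ordI τ 1) ^ 2 ≤ RingHom.ker (c0 (A := T)) := by
      rw [pow_two, Ideal.mul_le]
      intro x hx y hy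
      rw [RingHom.mem_ker, map_mul]
      rw [mem_ordI] at hx hy
      apply hsq
      · rw [c0_eq]; exact hx 0 0 (by omega)
      · rw [c0_eq]; exact hy 0 0 (by omega)
    exact h1 (Ideal.pow_le_pow_right (by omega) hF)

end

section
variable {G : Type*} [Group G]

/-- The matrix of the unknown. -/
theorem X_det {R T : Type*} [CommRing R] [CommRing T] (i₀ : R →+* T)
    (p s : PowerSeries R) (hps : p * s = 1 + PowerSeries.X) :
    mp i₀ (io p) * mp i₀ (io s) - qv * rv = 1 := by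
  rw [← map_mul, ← map_mul, hps, map_add, map_add, map_one, map_one, io_X, map_mul, mp_qv, mp_rv]
  ring

/-- The data of a representation by upper triangular matrices. -/
structure TriRep {R T : Type*} [CommRing R] [CommRing T] (τ : T →+* R) (i₀ : R →+* T)
    (l : G →* Rˣ) (ψ : G →* (M2 T)ˣ) : Prop where
  sec : ∀ a, τ (i₀ a) = a
  sq : ∀ x y, τ x = 0 → τ y = 0 → x * y = 0
  h00 : ∀ g, (ψ g : M2 T) 0 0 = i₀ (l g)
  h01 : ∀ g, τ ((ψ g : M2 T) 0 1) = 0
  h10 : ∀ g, (ψ g : M2 T) 1 0 = 0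
  h11 : ∀ g, (ψ g : M2 T) 1 1 = 1
  inj : Function.Injective ψ

/-- The constant. -/
theorem kappa_val {R T : Type*} [CommRing R] [CommRing T] {τ : T →+* R} {i₀ : R →+* T}
    {l : G →* Rˣ} {ψ : G →* (M2 T)ˣ} (h : TriRep τ i₀ l ψ)
    (w : Monoid.Coprod G (FreeGroup Unit)) (hl : ev l 1 w = 1) :
    τ ((ev ψ 1 w : M2 T) 0 1) = 0 ∧
    (ev ψ 1 w : M2 T) = !![1, (ev ψ 1 w : M2 T) 0 1; 0, 1] := by
  have hg0 : ev ψ 1 w = ψ (ev (MonoidHom.id G) 1 w) := by
    rw [map_ev, map_one]; rfl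
  have hl0 : l (ev (MonoidHom.id G) 1 w) = 1 := by
    rw [map_ev, map_one]; exact hl
  refine ⟨by rw [hg0]; exact h.h01 _, ?_⟩
  ext i j
  fin_cases i <;> fin_cases j
  · simp only [hg0]
    change (ψ _ : M2 T) 0 0 = 1
    rw [h.h00, hl0]; simp
  · rfl
  · simp only [hg0]
    change (ψ _ : M2 T) 1 0 = 0
    exact h.h10 _
  · simp only [hg0]
    change (ψ _ : M2 T) 1 1 = 1
    exact h.h11 _

section W
variable {R T : Type*} [CommRing R] [CommRing T] {τ : T →+* R} {i₀ : R →+* T}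
    {l : G →* Rˣ} {ψ : G →* (M2 T)ˣ} (h : TriRep τ i₀ l ψ)
    (M : ℕ) (w : Monoid.Coprod G (FreeGroup Unit))
    (hl : ev l 1 w = 1)
    (p s : PowerSeries R) (hp1 : PowerSeries.constantCoeff p = 1)
    (hs1 : PowerSeries.constantCoeff s = 1)
    (hps : p * s = 1 + PowerSeries.X)
    (hP : ev2 PowerSeries.C p s (PP l w) = 1)

include h hl hP in
/-- The first value, reduced. -/
theorem W_red : (mapU (mp τ) (ev ((mapU cc).comp ψ)
      (mkSL (mp i₀ (io p)) qv rv (mp i₀ (io s)) (X_det i₀ p s hps)) w) : M2 (PP2 R)) =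
    !![1, qv * io (ev2 PowerSeries.C p s (QQ l w)); rv * io (ev2 PowerSeries.C p s (RR l w)),
      1 + qv * rv * io (ev2 PowerSeries.C p s (QQ l w)) *
        io (ev2 PowerSeries.C p s (RR l w))] := by
  have hdet2 : io p * io s - qv * rv = (1 : PP2 R) := by
    rw [← map_mul, hps, map_add, map_one, io_X]
    ring
  have hmap' : ∀ F : PP2 R, mp τ (mp i₀ F) = F := by
    intro F
    apply cf_ext
    intro j l
    rw [cf_mp, cf_mp, h.sec]
  have hred : mapU (mp τ) (ev ((mapU cc).comp ψ)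
      (mkSL (mp i₀ (io p)) qv rv (mp i₀ (io s)) (X_det i₀ p s hps)) w) =
      ev (dg.comp (push l cc)) (mkSL (io p) qv rv (io s) hdet2) w := by
    rw [map_ev]
    congr 1
    · congr 1
      · apply MonoidHom.ext
        intro g
        apply Units.ext
        ext i j
        simp only [MonoidHom.comp_apply, mapU_val, mp_cc, dg_val, push_val]
        fin_cases i <;> fin_cases j
        · simp [h.h00, h.sec]
        · simp [h.h01]
        · simp [h.h10]
        · simp [h.h11]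
      · apply Units.ext
        ext i j
        simp only [mapU_val, mkSL_val]
        fin_cases i <;> fin_cases j <;> simp [hmap', mp_qv, mp_rv]
  have hev2 : ∀ F : R[X][X], ev2 cc (io p) (io s) F = io (ev2 PowerSeries.C p s F) := by
    intro F
    rw [map_ev2]
    congr 2
    ext a
    rw [RingHom.comp_apply, io_C]
  have hmain := main_formula l w cc (io p) qv rv (io s) hdet2
  rw [← hred] at hmain
  simp only [hev2, hP] at hmain
  have hSS := SS_eq l w hl p s hps hP
  rw [hSS] at hmain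
  rw [hmain]
  simp only [map_one, map_add, map_mul, io_X, mul_assoc]

include hp1 hs1 in
/-- The second value, reduced. -/
theorem W_c0 : mapU c0 (ev ((mapU cc).comp ψ)
      (mkSL (mp i₀ (io p)) qv rv (mp i₀ (io s)) (X_det i₀ p s hps)) w) = ev ψ 1 w := by
  rw [map_ev]
  have k1 : (mapU c0).comp ((mapU cc).comp ψ) = ψ := by
    apply MonoidHom.ext
    intro g
    apply Units.ext
    ext i j
    simp only [MonoidHom.comp_apply, mapU_val, c0_cc]
  have k2 : mapU c0 (mkSL (mp i₀ (io p)) qv rv (mp i₀ (io s)) (X_det i₀ p s hps)) = 1 := by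
    apply Units.ext
    ext i j
    simp only [mapU_val, mkSL_val, Units.val_one]
    fin_cases i <;> fin_cases j <;>
      simp [c0_mp, c0_io, hp1, hs1, c0_qv, c0_rv]
  rw [k1, k2]

include hl hP hp1 hs1 in
/-- The value differs from one by elements of the ideal. -/
theorem W_mem (κ : T) (hκ : τ κ = 0) (hκ' : κ = (ev ψ 1 w : M2 T) 0 1) (i j : Fin 2) :
    (ev ((mapU cc).comp ψ)
      (mkSL (mp i₀ (io p)) qv rv (mp i₀ (io s)) (X_det i₀ p s hps)) w : M2 (PP2 T)) i j -
      (1 : M2 (PP2 T)) i j ∈ kI τ i₀ h.sec h.sq (ev2 PowerSeries.C p s (QQ l w))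
        (ev2 PowerSeries.C p s (RR l w)) M κ hκ := by
  have hval := (kappa_val h w hl).2
  rw [← hκ'] at hval
  have hc0 := W_c0 (i₀ := i₀) (ψ := ψ) w p s hp1 hs1 hps
  have hmain := W_red h w hl p s hps hP
  set W := ev ((mapU cc).comp ψ)
      (mkSL (mp i₀ (io p)) qv rv (mp i₀ (io s)) (X_det i₀ p s hps)) w
  have e1 : ∀ i j, mp τ ((W : M2 (PP2 T)) i j) = (mapU (mp τ) W : M2 (PP2 R)) i j :=
    fun i j => rfl
  have e2 : ∀ i j, c0 ((W : M2 (PP2 T)) i j) = (ev ψ 1 w : M2 T) i j := by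
    intro i j
    rw [← hc0]; rfl
  rw [mem_kI]
  fin_cases i <;> fin_cases j
  · refine ⟨0, ?_, ?_⟩
    · simp only [map_sub]
      have := e1 0 0
      rw [hmain] at this
      simp at this
      simp [this]
    · simp only [map_sub]
      have := e2 0 0
      rw [hval] at this
      simp at this
      simp [this]
  · refine ⟨1, ?_, ?_⟩
    · simp only [map_sub]
      have := e1 0 1
      rw [hmain] at this
      simp at this
      simp [this]
    · simp only [map_sub]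
      have := e2 0 1
      rw [hval] at this
      simp at this
      simp [this]
  · refine ⟨0, ?_, ?_⟩
    · simp only [map_sub]
      have := e1 1 0
      rw [hmain] at this
      simp at this
      simp [this]
      apply Ideal.mem_sup_left
      apply Ideal.mem_sup_left
      exact Ideal.mem_span_singleton_self _
    · simp only [map_sub]
      have := e2 1 0
      rw [hval] at this
      simp at this
      simp [this]
  · refine ⟨0, ?_, ?_⟩
    · simp only [map_sub]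
      have := e1 1 1
      rw [hmain] at this
      simp at this
      simp [this]
      apply Ideal.mem_sup_left
      apply Ideal.mem_sup_left
      rw [Ideal.mem_span_singleton]
      exact ⟨qv * io (ev2 PowerSeries.C p s (QQ l w)), by ring⟩
    · simp only [map_sub]
      have := e2 1 1
      rw [hval] at this
      simp at this
      simp [this]

end W

/-- Group theoretic conclusion for abstract rings. -/
theorem group_conclusion {R T B B' : Type*} [CommRing R] [CommRing T] [CommRing B] [CommRing B']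
    {τ : T →+* R} {i₀ : R →+* T}
    {l : G →* Rˣ} {ψ : G →* (M2 T)ˣ} (h : TriRep τ i₀ l ψ) (w : Monoid.Coprod G (FreeGroup Unit))
    (p s : PowerSeries R) (hp1 : PowerSeries.constantCoeff p = 1)
    (hs1 : PowerSeries.constantCoeff s = 1)
    (hps : p * s = 1 + PowerSeries.X)
    (mk : PP2 T →+* B) (ρ : B →+* B') (I : Ideal B) (N : ℕ) (hI : I ^ N = ⊥)
    (hρ : ∀ b, ρ b = 0 → b ∈ I)
    (hρ' : ∀ F : PP2 T, τ (c0 F) = 0 → ρ (mk F) = 0)
    (hW : ∀ i j, mk ((ev ((mapU cc).comp ψ)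
      (mkSL (mp i₀ (io p)) qv rv (mp i₀ (io s)) (X_det i₀ p s hps)) w : M2 (PP2 T)) i j -
      (1 : M2 (PP2 T)) i j) = 0)
    (hinj1 : ∀ t : T, mk (cc t) = 0 → τ t = 0)
    (hinj2 : ∀ t : T, mk (cc t) = 0 → τ t = 0 → t = 0) :
    ∃ S : Subgroup (M2 B)ˣ, Group.IsSolvable S ∧
      ∃ φ : G →* S, Function.Injective φ ∧ ∃ x : S, ev φ x w = 1 := by
  set X₁ : (M2 (PP2 T))ˣ := mkSL (mp i₀ (io p)) qv rv (mp i₀ (io s)) (X_det i₀ p s hps) with hX₁
  let ψ₂ : G →* (M2 B)ˣ := (mapU mk).comp ((mapU cc).comp ψ)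
  let X₂ : (M2 B)ˣ := mapU mk X₁
  have hW1 : ev ψ₂ X₂ w = 1 := by
    have h1 : mapU mk (ev ((mapU cc).comp ψ) X₁ w) = ev ψ₂ X₂ w := by
      rw [map_ev]
    rw [← h1]
    apply Units.ext
    ext i j
    rw [mapU_val]
    have h2 := hW i j
    rw [map_sub, sub_eq_zero] at h2
    rw [h2, Units.val_one, Matrix.one_apply, Matrix.one_apply]
    split_ifs <;> simp
  have hρ2 : ∀ F F' : PP2 T, τ (c0 (F - F')) = 0 → ρ (mk F) = ρ (mk F') := by
    intro F F' hF
    have := hρ' _ hF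
    rw [map_sub, map_sub, sub_eq_zero] at this
    exact this
  have hdgr : ∀ v, mapU ρ (ev ψ₂ X₂ v) ∈ (dg (B := B')).range := by
    intro v
    rw [map_ev]
    apply ev_mem
    · intro g
      refine ⟨Units.map (((ρ.comp mk).comp (cc.comp i₀)).toMonoidHom) (l g), ?_⟩
      apply Units.ext
      ext i j
      simp only [ψ₂, MonoidHom.comp_apply, mapU_val, dg_val]
      fin_cases i <;> fin_cases j
      · simp [h.h00]
      · have := hρ2 (cc ((ψ g : M2 T) 0 1)) 0 (by rw [sub_zero, c0_cc, h.h01])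
        rw [map_zero, map_zero] at this
        exact this.symm
      · simp [h.h10]
      · simp [h.h11]
    · refine ⟨1, ?_⟩
      rw [map_one]
      apply Units.ext
      ext i j
      simp only [X₂, hX₁, mapU_val, mkSL_val, Units.val_one]
      fin_cases i <;> fin_cases j
      · have := hρ2 (mp i₀ (io p)) 1 (by rw [map_sub, c0_mp, c0_io, hp1]; simp)
        simp [this]
      · have := hρ2 qv 0 (by rw [sub_zero, c0_qv, map_zero])
        simp [this]
      · have := hρ2 rv 0 (by rw [sub_zero, c0_rv, map_zero])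
        simp [this]
      · have := hρ2 (mp i₀ (io s)) 1 (by rw [map_sub, c0_mp, c0_io, hs1]; simp)
        simp [this]
  have hsolv : Group.IsSolvable (ev ψ₂ X₂).range := by
    apply solvable_mats' I N hI ρ hρ
    rintro _ ⟨v, rfl⟩ _ ⟨v', rfl⟩
    obtain ⟨u, hu⟩ := hdgr v
    obtain ⟨u', hu'⟩ := hdgr v'
    rw [map_mul, map_mul, ← hu, ← hu', ← map_mul, ← map_mul, mul_comm]
  refine ⟨(ev ψ₂ X₂).range, hsolv, ?_⟩
  let φ : G →* (ev ψ₂ X₂).range :=
    ((ev ψ₂ X₂).rangeRestrict).comp Monoid.Coprod.inl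
  let x : (ev ψ₂ X₂).range := (ev ψ₂ X₂).rangeRestrict (Monoid.Coprod.inr (FreeGroup.of ()))
  have hφ : (ev ψ₂ X₂).range.subtype.comp φ = ψ₂ := by
    apply MonoidHom.ext
    intro g
    change ev ψ₂ X₂ (Monoid.Coprod.inl g) = ψ₂ g
    simp [ev]
  have hx : (ev ψ₂ X₂).range.subtype x = X₂ := by
    change ev ψ₂ X₂ (Monoid.Coprod.inr (FreeGroup.of ())) = X₂
    simp [ev]
  refine ⟨φ, ?_, x, ?_⟩
  · intro g g' hgh
    have h1 : ψ₂ g = ψ₂ g' := by
      rw [← hφ]
      exact congrArg (ev ψ₂ X₂).range.subtype hgh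
    apply h.inj
    apply Units.ext
    have h2 : ∀ i j, mk (cc ((ψ g : M2 T) i j - (ψ g' : M2 T) i j)) = 0 := by
      intro i j
      rw [map_sub, map_sub, sub_eq_zero]
      exact congrArg (fun U : (M2 B)ˣ => (U : M2 B) i j) h1
    ext i j
    fin_cases i <;> fin_cases j
    · change (ψ g : M2 T) 0 0 = (ψ g' : M2 T) 0 0
      have h4 := hinj1 _ (h2 0 0)
      rw [map_sub, h.h00, h.h00, h.sec, h.sec, sub_eq_zero] at h4
      rw [h.h00, h.h00, h4]
    · change (ψ g : M2 T) 0 1 = (ψ g' : M2 T) 0 1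
      have h4 := hinj2 _ (h2 0 1) (by rw [map_sub, h.h01, h.h01, sub_zero])
      exact sub_eq_zero.1 h4
    · change (ψ g : M2 T) 1 0 = (ψ g' : M2 T) 1 0
      rw [h.h10, h.h10]
    · change (ψ g : M2 T) 1 1 = (ψ g' : M2 T) 1 1
      rw [h.h11, h.h11]
  · apply (ev ψ₂ X₂).range.subtype_injective
    rw [map_ev, hφ, hx, hW1, map_one]

/-- The same with the second ring a quotient. -/
theorem group_conclusion' {R T B : Type*} [CommRing R] [CommRing T] [CommRing B]
    {τ : T →+* R} {i₀ : R →+* T}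
    {l : G →* Rˣ} {ψ : G →* (M2 T)ˣ} (h : TriRep τ i₀ l ψ) (w : Monoid.Coprod G (FreeGroup Unit))
    (p s : PowerSeries R) (hp1 : PowerSeries.constantCoeff p = 1)
    (hs1 : PowerSeries.constantCoeff s = 1)
    (hps : p * s = 1 + PowerSeries.X)
    (mk : PP2 T →+* B) (N : ℕ) (hI : (Ideal.map mk (ordI τ 1)) ^ N = ⊥)
    (hW : ∀ i j, mk ((ev ((mapU cc).comp ψ)
      (mkSL (mp i₀ (io p)) qv rv (mp i₀ (io s)) (X_det i₀ p s hps)) w : M2 (PP2 T)) i j -
      (1 : M2 (PP2 T)) i j) = 0)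
    (hinj1 : ∀ t : T, mk (cc t) = 0 → τ t = 0)
    (hinj2 : ∀ t : T, mk (cc t) = 0 → τ t = 0 → t = 0) :
    ∃ S : Subgroup (M2 B)ˣ, Group.IsSolvable S ∧
      ∃ φ : G →* S, Function.Injective φ ∧ ∃ x : S, ev φ x w = 1 := by
  have key : ∀ {B' : Type _} [CommRing B'] (ρ : B →+* B'),
      (∀ b, ρ b = 0 → b ∈ Ideal.map mk (ordI τ 1)) → (∀ b ∈ Ideal.map mk (ordI τ 1), ρ b = 0) →
      ∃ S : Subgroup (M2 B)ˣ, Group.IsSolvable S ∧
      ∃ φ : G →* S, Function.Injective φ ∧ ∃ x : S, ev φ x w = 1 := by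
    intro B' _ ρ hρ hρ2
    apply group_conclusion h w p s hp1 hs1 hps mk ρ _ N hI hρ
    · intro F hF
      apply hρ2
      apply Ideal.mem_map_of_mem
      rw [mem_ordI]
      intro j l hjl
      obtain ⟨rfl, rfl⟩ : j = 0 ∧ l = 0 := by omega
      rw [← c0_eq]
      exact hF
    · exact hW
    · exact hinj1
    · exact hinj2
  exact key (B' := B ⧸ Ideal.map mk (ordI τ 1)) (Ideal.Quotient.mk _)
    (fun b hb => Ideal.Quotient.eq_zero_iff_mem.1 hb)
    (fun b hb => Ideal.Quotient.eq_zero_iff_mem.2 hb)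

/-- The matrix solution of the equation. -/
theorem ring_solution.{u} {R : Type*} {T : Type u} [CommRing R] [CommRing T] (τ : T →+* R)
    (i₀ : R →+* T) (M : ℕ) (l : G →* Rˣ) (w : Monoid.Coprod G (FreeGroup Unit))
    (hl : ev l 1 w = 1)
    (ψ : G →* (M2 T)ˣ) (h : TriRep τ i₀ l ψ)
    (p s : PowerSeries R) (hp1 : PowerSeries.constantCoeff p = 1)
    (hs1 : PowerSeries.constantCoeff s = 1)
    (hps : p * s = 1 + PowerSeries.X)
    (hP : ev2 PowerSeries.C p s (PP l w) = 1)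
    (hkey : ∀ a : R, cc a * (qv * io (ev2 PowerSeries.C p s (QQ l w))) ∈
      nI (ev2 PowerSeries.C p s (QQ l w)) (ev2 PowerSeries.C p s (RR l w)) M → a = 0) :
    ∃ (B : Type u) (_ : CommRing B) (S : Subgroup (M2 B)ˣ), Group.IsSolvable S ∧
      ∃ φ : G →* S, Function.Injective φ ∧ ∃ x : S, ev φ x w = 1 := by
  set κ : T := (ev ψ 1 w : M2 T) 0 1 with hκ'
  have hκ : τ κ = 0 := (kappa_val h w hl).1
  set K := kI τ i₀ h.sec h.sq (ev2 PowerSeries.C p s (QQ l w))
        (ev2 PowerSeries.C p s (RR l w)) M κ hκ with hK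
  have hIpow : (Ideal.map (Ideal.Quotient.mk K) (ordI τ 1)) ^ (M + 2) = ⊥ := by
    rw [eq_bot_iff, ← Ideal.map_pow, Ideal.map_le_iff_le_comap]
    intro F hF
    rw [Ideal.mem_comap, Ideal.mem_bot]
    exact Ideal.Quotient.eq_zero_iff_mem.2 (pow_le_kI τ i₀ h.sec h.sq _ _ M κ hκ hF)
  refine ⟨PP2 T ⧸ K, inferInstance, ?_⟩
  apply group_conclusion' h w p s hp1 hs1 hps (Ideal.Quotient.mk K) (M + 2) hIpow
  · intro i j
    apply Ideal.Quotient.eq_zero_iff_mem.2
    exact W_mem h M w hl p s hp1 hs1 hps hP κ hκ hκ' i j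
  · intro t ht
    exact cc_mem_kI' τ i₀ h.sec h.sq _ _ M κ hκ t (Ideal.Quotient.eq_zero_iff_mem.1 ht)
  · intro t ht ht'
    exact cc_mem_kI τ i₀ h.sec h.sq _ _ M κ hκ hkey t ht' (Ideal.Quotient.eq_zero_iff_mem.1 ht)

end

end H37.Eqn
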