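import Mathlib
import Pool.Agent.H37.Eqn.RingT

set_option autoImplicit false

namespace H37.Eqn

open Matrix

section
variable {G : Type*} [Group G]

/-- A cocycle gives a triangular representation. -/
theorem exists_triRep.{u} {R : Type u} {E : Type u} [CommRing R] [AddCommGroup E] [Module R E]
    (l : G →* Rˣ) (e : G → E) (he : ∀ g h, e (g * h) = e g + (l g : R) • e h)
    (hinj : ∀ g, l g = 1 → e g = 0 → g = 1) :
    ∃ (T : Type u) (_ : CommRing T) (τ : T →+* R) (i₀ : R →+* T) (ψ : G →* (M2 T)ˣ),
      TriRep τ i₀ l ψ := by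
  letI : Module Rᵐᵒᵖ E := Module.compHom E ((RingHom.id R).fromOpposite mul_comm)
  haveI : IsCentralScalar R E := ⟨fun r m => rfl⟩
  let τ : TrivSqZeroExt R E →+* R := (TrivSqZeroExt.fstHom R R E).toRingHom
  let i₀ : R →+* TrivSqZeroExt R E := TrivSqZeroExt.inlHom R E
  have he1 : e 1 = 0 := by
    have := he 1 1
    rw [mul_one, map_one, Units.val_one, one_smul] at this
    simpa using this
  let f : G →* M2 (TrivSqZeroExt R E) :=
    { toFun := fun g => !![TrivSqZeroExt.inl (l g : R), TrivSqZeroExt.inr (e g); 0, 1]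
      map_one' := by
        ext i j
        · fin_cases i <;> fin_cases j <;> simp [he1]
        · fin_cases i <;> fin_cases j <;> simp [he1]
      map_mul' := by
        intro g h
        ext i j
        · fin_cases i <;> fin_cases j <;> simp [Matrix.mul_apply, Fin.sum_univ_two]
        · fin_cases i <;> fin_cases j <;>
            simp [Matrix.mul_apply, Fin.sum_univ_two, he, add_comm] }
  refine ⟨TrivSqZeroExt R E, inferInstance, τ, i₀, f.toHomUnits, ?_⟩
  refine ⟨?_, ?_, ?_, ?_, ?_, ?_, ?_⟩
  · intro a; simp [τ, i₀]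
  · intro x y hx hy
    have hx' : x.fst = 0 := hx
    have hy' : y.fst = 0 := hy
    ext
    · simp [hx', hy']
    · simp [hx', hy']
  · intro g; simp [f, i₀]
  · intro g; simp [f, τ]
  · intro g; simp [f]
  · intro g; simp [f]
  · rw [injective_iff_map_eq_one]
    intro g hg
    have h1 := congrArg (fun U : (M2 (TrivSqZeroExt R E))ˣ => (U : M2 (TrivSqZeroExt R E)) 0 0) hg
    have h2 := congrArg (fun U : (M2 (TrivSqZeroExt R E))ˣ => (U : M2 (TrivSqZeroExt R E)) 0 1) hg
    simp [f] at h1 h2
    apply hinj g
    · apply Units.ext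
      have := congrArg TrivSqZeroExt.fst h1
      simpa using this
    · have := congrArg TrivSqZeroExt.snd h2
      simpa using this

end

end H37.Eqn
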