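import Mathlib
import Pool.Agent.H37.Eqn.Emb

set_option autoImplicit false

namespace H37.Eqn

open Matrix
open scoped commutatorElement

/-- Triangular representation of an extension of an abelian group by an abelian group. -/
theorem exists_rep {G D : Type} [Group G] [CommGroup D] (π : G →* D)
    (hπ : Function.Surjective π) (hker : ∀ a b, π a = 1 → π b = 1 → a * b = b * a) :
    ∃ (T : Type) (_ : CommRing T) (τ : T →+* MonoidAlgebra ℤ D) (i₀ : MonoidAlgebra ℤ D →+* T)
      (ψ : G →* (M2 T)ˣ), TriRep τ i₀ (lR π) ψ := by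
  let C : Type := π.ker
  let instC : CommGroup π.ker :=
    { (inferInstance : Group π.ker) with
      mul_comm := fun a b => Subtype.ext (hker a b a.2 b.2) }
  let E : Type := D → Additive π.ker
  let ρ : Representation ℤ D E :=
    { toFun := fun c =>
        { toFun := fun f => fun d => f (c⁻¹ * d)
          map_add' := fun f g => rfl
          map_smul' := fun n f => rfl }
      map_one' := by
        apply LinearMap.ext
        intro f
        funext d
        simp
      map_mul' := by
        intro a b
        apply LinearMap.ext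
        intro f
        funext d
        simp [mul_assoc, mul_comm] }
  let t : D → G := Function.surjInv hπ
  have ht : ∀ d, π (t d) = d := Function.surjInv_eq hπ
  let e' : G → E := fun g d => Additive.ofMul
    ⟨(t d)⁻¹ * g * t ((π g)⁻¹ * d), by
      rw [MonoidHom.mem_ker, map_mul, map_mul, map_inv, ht, ht]
      rw [mul_assoc, mul_inv_cancel_left, inv_mul_cancel]⟩
  have he' : ∀ g h, e' (g * h) = e' g + ρ (π g) (e' h) := by
    intro g h
    funext d
    apply Additive.toMul.injective
    apply Subtype.ext
    change (t d)⁻¹ * (g * h) * t ((π (g * h))⁻¹ * d) =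
      ((t d)⁻¹ * g * t ((π g)⁻¹ * d)) * ((t ((π g)⁻¹ * d))⁻¹ * h * t ((π h)⁻¹ * ((π g)⁻¹ * d)))
    rw [map_mul, mul_inv, mul_comm (π g)⁻¹, mul_assoc (π h)⁻¹]
    group
  have hinj' : ∀ g, π g = 1 → e' g = 0 → g = 1 := by
    intro g hg h0
    have h1 := congrFun h0 1
    have h2 : (t 1)⁻¹ * g * t ((π g)⁻¹ * 1) = 1 := congrArg Subtype.val h1
    rw [hg, inv_one, mul_one] at h2
    rw [mul_eq_one_iff_eq_inv, inv_mul_eq_iff_eq_mul, mul_inv_cancel] at h2
    exact h2
  have := exists_triRep (R := MonoidAlgebra ℤ D) (E := ρ.asModule) (lR π)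
    (fun g => ρ.asModuleEquiv.symm (e' g)) (by
      intro g h
      rw [he', map_add, lR_val]
      congr 1
      rw [Representation.asModuleEquiv_symm_map_rho]
      rfl) (by
      intro g hg h0
      apply hinj' g
      · have h1 := congrArg (fun u : (MonoidAlgebra ℤ D)ˣ => (u : MonoidAlgebra ℤ D)) hg
        simp only [lR_val, Units.val_one] at h1
        have h2 : MonoidAlgebra.single (π g) (1 : ℤ) = MonoidAlgebra.single 1 1 := h1
        exact MonoidAlgebra.of_injective (R := ℤ) (M := D) h2
      · exact (LinearEquiv.map_eq_zero_iff _).1 h0)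
  exact this

/-- The case of exponent sum one and trivial abelian part. -/
theorem case_one {G D : Type} [Group G] [CommGroup D] (π : G →* D)
    (hπ : Function.Surjective π) (hker : ∀ a b, π a = 1 → π b = 1 → a * b = b * a)
    (w : Monoid.Coprod G (FreeGroup Unit)) (hw : ev π 1 w = 1)
    (he : expo w = Multiplicative.ofAdd 1) :
    ∃ (H : Type) (_ : Group H), Group.IsSolvable H ∧
      ∃ φ : G →* H, Function.Injective φ ∧ ∃ x : H, ev φ x w = 1 := by
  obtain ⟨T, _, τ, i₀, ψ, hT⟩ := exists_rep π hπ hker
  obtain ⟨p, s, hp1, hs1, hps, hP, N, hN⟩ := exists_series π w hw he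
  obtain ⟨B, _, S, hS, φ, hφ, x, hx⟩ := ring_solution τ i₀ (2 * N + 2) (lR π) w (lR_one π w hw)
    ψ hT p s hp1 hs1 hps hP (fun a ha => key_lemma _ _ N hN a ha)
  exact ⟨S, inferInstance, hS, φ, hφ, x, hx⟩

/-- The case of exponent sum one. -/
theorem case_two {G D : Type} [Group G] [CommGroup D] (π : G →* D)
    (hπ : Function.Surjective π) (hker : ∀ a b, π a = 1 → π b = 1 → a * b = b * a)
    (w : Monoid.Coprod G (FreeGroup Unit))
    (he : expo w = Multiplicative.ofAdd 1) :
    ∃ (H : Type) (_ : Group H), Group.IsSolvable H ∧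
      ∃ φ : G →* H, Function.Injective φ ∧ ∃ x : H, ev φ x w = 1 := by
  obtain ⟨t, ht⟩ := hπ (ev π 1 w)⁻¹
  let sub : Monoid.Coprod G (FreeGroup Unit) →* Monoid.Coprod G (FreeGroup Unit) :=
    ev Monoid.Coprod.inl (Monoid.Coprod.inr (FreeGroup.of ()) * Monoid.Coprod.inl t)
  have hsub : ∀ {A : Type} [Group A] (ψ : G →* A) (y : A), ev ψ y (sub w) = ev ψ (y * ψ t) w := by
    intro A _ ψ y
    simp only [sub]
    rw [map_ev]
    have k1 : (ev ψ y).comp Monoid.Coprod.inl = ψ := by
      apply MonoidHom.ext
      intro g; simp [ev]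
    have k2 : ev ψ y (Monoid.Coprod.inr (FreeGroup.of ()) * Monoid.Coprod.inl t) = y * ψ t := by
      rw [map_mul]; simp [ev]
    rw [k1, k2]
  obtain ⟨H, _, hH, φ, hφ, x, hx⟩ := case_one π hπ hker (sub w) (by
      rw [hsub, one_mul, ev_comm, he, ht]
      simp) (by
      have h1 : expo (sub w) = ev (1 : G →* Multiplicative ℤ) (Multiplicative.ofAdd 1) (sub w) := rfl
      rw [h1, hsub]
      simp only [MonoidHom.one_apply, mul_one]
      exact he)
  exact ⟨H, _, hH, φ, hφ, x * φ t, by rw [← hsub]; exact hx⟩

/-- Unimodular equations over metabelian groups. -/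
theorem metabelian {G : Type} [Group G] (hG : derivedSeries G 2 = ⊥)
    (w : Monoid.Coprod G (FreeGroup Unit))
    (he : expo w = Multiplicative.ofAdd 1 ∨ expo w = Multiplicative.ofAdd (-1)) :
    ∃ (H : Type) (_ : Group H), Group.IsSolvable H ∧
      ∃ φ : G →* H, Function.Injective φ ∧ ∃ x : H, ev φ x w = 1 := by
  have hker : ∀ a b : G, Abelianization.of a = 1 → Abelianization.of b = 1 → a * b = b * a := by
    intro a b ha hb
    have ha' : a ∈ commutator G := by
      rw [← Abelianization.ker_of]; exact ha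
    have hb' : b ∈ commutator G := by
      rw [← Abelianization.ker_of]; exact hb
    have h1 : ⁅a, b⁆ ∈ derivedSeries G 2 := by
      rw [derivedSeries_succ]
      apply Subgroup.commutator_mem_commutator
      · rw [derivedSeries_one]; exact ha'
      · rw [derivedSeries_one]; exact hb'
    rw [hG, Subgroup.mem_bot, commutatorElement_eq_one_iff_mul_comm] at h1
    exact h1
  have hsurj : Function.Surjective (Abelianization.of : G →* Abelianization G) :=
    QuotientGroup.mk_surjective
  rcases he with he | he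
  · exact case_two Abelianization.of hsurj hker w he
  · obtain ⟨H, _, hH, φ, hφ, x, hx⟩ := case_two Abelianization.of hsurj hker w⁻¹ (by
      rw [map_inv, he, ← ofAdd_neg, neg_neg])
    refine ⟨H, _, hH, φ, hφ, x, ?_⟩
    rw [map_inv, inv_eq_one] at hx
    exact hx

end H37.Eqn
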